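import Pool.Agent.H97.NF.All
import Pool.Agent.H76.ND.Targets2

/-!
# Crude moments (CRM)
-/

open MeasureTheory ProbabilityTheory
open scoped ENNReal
open Pool.Agent.H99.NS Pool.Agent.H22.LPP Pool.Agent.H95.INS Pool.Agent.H76.ND

namespace Pool.Agent.H22.ND

/-- The sites around the paths. -/
noncomputable def rec (o e : Site) (N : ℕ) : Finset Site :=
  (Finset.Ioc o.1 e.1) ×ˢ (Finset.Icc (o.2 - N) (o.2 + N))

theorem T_le_sum (ω : Env) {o e : Site} {N : ℕ} (hN : e.1 - o.1 = N) (h : Reach o e) :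
    T ω o e ≤ ∑ x ∈ rec o e N, (ω x : ℝ) := by
  refine T_le ω h fun γ hγ => ?_
  unfold wt rec
  rw [Finset.sum_product]
  refine Finset.sum_le_sum fun r hr => ?_
  rw [Finset.mem_Ioc] at hr
  have h1 := path_lip hγ.1 le_rfl hr.1.le hr.2
  rw [hγ.2.1, abs_le] at h1
  refine Finset.single_le_sum (f := fun y => (ω (r, y) : ℝ)) (fun _ _ => Nat.cast_nonneg _) ?_
  rw [Finset.mem_Icc]
  constructor <;> omega

theorem pf_CRM : T_CRM := by
  intro q hq0 hq1
  have hint := Pool.Agent.H97.NF.a_GMO q hq0.le hq1 8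
  obtain ⟨C8, hC8⟩ : ∃ C8 : ℝ, C8 = ∫ k : ℕ, (k : ℝ) ^ 8 ∂(geo q) := ⟨_, rfl⟩
  have hC80 : 0 ≤ C8 := by rw [hC8]; exact integral_nonneg fun k => by positivity
  have h8 : ∀ x : Site, ∫⁻ ω : Env, ENNReal.ofReal ((ω x : ℝ) ^ 8) ∂(PE q) =
      ENNReal.ofReal C8 := by
    intro x
    have hmp := measurePreserving_eval_infinitePi (fun _ : Site => geo q) x
    have h1 : ∫⁻ ω : Env, ENNReal.ofReal ((ω x : ℝ) ^ 8) ∂(PE q) =
        ∫⁻ k : ℕ, ENNReal.ofReal ((k : ℝ) ^ 8) ∂(geo q) := by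
      have := hmp.lintegral_comp (f := fun k : ℕ => ENNReal.ofReal ((k : ℝ) ^ 8))
        (measurable_of_countable _)
      exact this
    rw [h1, hC8, ofReal_integral_eq_lintegral_ofReal hint
      (Filter.Eventually.of_forall fun k => by positivity)]
  refine ⟨3 ^ 8 * (C8 + 1), by positivity, ?_⟩
  intro N o e hN hNe hoe
  have hNr : (1 : ℝ) ≤ N := by exact_mod_cast hN
  have hcard : ((rec o e N).card : ℝ) ≤ 3 * (N : ℝ) ^ 2 := by
    have : (rec o e N).card = N * (2 * N + 1) := by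
      unfold rec
      rw [Finset.card_product, Int.card_Ioc, Int.card_Icc]
      congr 1
      · omega
      · omega
    rw [this]
    push_cast
    nlinarith
  have hpt : ∀ ω : Env, T ω o e ^ 8 ≤ (3 * (N : ℝ) ^ 2) ^ 7 * ∑ x ∈ rec o e N, (ω x : ℝ) ^ 8 := by
    intro ω
    have h1 := T_le_sum ω hNe hoe
    have h2 := T_nonneg ω o e
    have h3 := pow_sum_div_card_le_sum_pow (s := rec o e N) (f := fun x => (ω x : ℝ))
      (fun x _ => Nat.cast_nonneg _) 7
    have h0 : 0 ≤ ∑ x ∈ rec o e N, (ω x : ℝ) ^ 8 := Finset.sum_nonneg fun x _ => by positivity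
    have hc0 : (0 : ℝ) < (rec o e N).card := by
      have hne : (rec o e N).Nonempty := by
        unfold rec
        rw [Finset.nonempty_product]
        exact ⟨Finset.nonempty_Ioc.2 (by omega), Finset.nonempty_Icc.2 (by omega)⟩
      exact_mod_cast hne.card_pos
    rw [div_le_iff₀ (by positivity)] at h3
    calc T ω o e ^ 8 ≤ (∑ x ∈ rec o e N, (ω x : ℝ)) ^ 8 := by gcongr
      _ ≤ (∑ x ∈ rec o e N, (ω x : ℝ) ^ 8) * ((rec o e N).card : ℝ) ^ 7 := h3
      _ ≤ (∑ x ∈ rec o e N, (ω x : ℝ) ^ 8) * (3 * (N : ℝ) ^ 2) ^ 7 := by gcongr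
      _ = _ := by ring
  calc ∫⁻ ω, ENNReal.ofReal (T ω o e ^ 8) ∂(PE q) ≤
      ∫⁻ ω, ENNReal.ofReal ((3 * (N : ℝ) ^ 2) ^ 7) *
        ∑ x ∈ rec o e N, ENNReal.ofReal ((ω x : ℝ) ^ 8) ∂(PE q) := by
        refine lintegral_mono fun ω => ?_
        simp only
        rw [← ENNReal.ofReal_sum_of_nonneg (fun x _ => by positivity),
          ← ENNReal.ofReal_mul (by positivity)]
        exact ENNReal.ofReal_le_ofReal (hpt ω)
    _ = ENNReal.ofReal ((3 * (N : ℝ) ^ 2) ^ 7) *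
        ∑ x ∈ rec o e N, ∫⁻ ω, ENNReal.ofReal ((ω x : ℝ) ^ 8) ∂(PE q) := by
        rw [lintegral_const_mul' _ _ ENNReal.ofReal_ne_top, lintegral_finset_sum]
        intro x _
        exact (measurable_of_countable (fun k : ℕ => ENNReal.ofReal ((k : ℝ) ^ 8))).comp
          (measurable_pi_apply x)
    _ = ENNReal.ofReal ((3 * (N : ℝ) ^ 2) ^ 7) *
        ((rec o e N).card * ENNReal.ofReal C8) := by
        congr 1
        rw [Finset.sum_congr rfl (fun x _ => h8 x), Finset.sum_const, nsmul_eq_mul]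
    _ = ENNReal.ofReal ((3 * (N : ℝ) ^ 2) ^ 7 * ((rec o e N).card * C8)) := by
        rw [ENNReal.ofReal_mul (by positivity), ENNReal.ofReal_mul (by positivity),
          ENNReal.ofReal_natCast]
    _ ≤ ENNReal.ofReal (3 ^ 8 * (C8 + 1) * (N : ℝ) ^ 16) := by
        apply ENNReal.ofReal_le_ofReal
        calc (3 * (N : ℝ) ^ 2) ^ 7 * ((rec o e N).card * C8) ≤
            (3 * (N : ℝ) ^ 2) ^ 7 * ((3 * (N : ℝ) ^ 2) * (C8 + 1)) := by
              gcongr
              linarith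
          _ = _ := by ring

end Pool.Agent.H22.ND
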