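import Pool.Agent.H22.ND.TFL2

/-!
# Effect of a change near an end point (DFT)
-/

open MeasureTheory ProbabilityTheory
open scoped ENNReal
open Pool.Agent.H99.NS Pool.Agent.H22.LPP Pool.Agent.H95.INS Pool.Agent.H76.ND

namespace Pool.Agent.H22.ND

theorem W_o (ω : Env) (o : Site) (L : ℤ) (g : ℤ → ℤ) :
    (bwd (shiftE o ω)).W (-L) 0 (fun r => g (o.1 - r) - o.2) = wt ω o.1 (o.1 + L) g := by
  have e1 : (bwd (shiftE o ω)).W (-L) 0 (fun r => g (o.1 - r) - o.2) =
      wt (shiftE o ω) 0 L (fun r => g (o.1 + r) - o.2) := by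
    show wt (shiftE o ω) (-0) (- -L) (rvp fun r => g (o.1 - r) - o.2) = _
    rw [neg_zero, neg_neg]
    congr 1
    funext r
    unfold rvp
    simp only [sub_neg_eq_add]
  have e3 : (fun r => (fun r => g (o.1 + r) - o.2) (r - o.1) + o.2) = g := by
    funext r
    simp only
    rw [show o.1 + (r - o.1) = r by ring]
    ring
  rw [e1, wt_shift, e3, zero_add, add_comm L o.1]

theorem TT_o (ω : Env) (o : Site) (L y : ℤ) :
    (bwd (shiftE o ω)).TT (-L, y - o.2) (0, 0) = T ω o (o.1 + L, y) := by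
  show T (shiftE o ω) (rev (0, 0)) (rev (-L, y - o.2)) = _
  unfold rev
  simp only [neg_zero, neg_neg]
  rw [T_shift]
  have e4 : ((0, 0) : Site) + o = o := by ext <;> simp
  have e5 : ((L, y - o.2) : Site) + o = (o.1 + L, y) := by
    ext
    · simp [add_comm]
    · simp
  rw [e4, e5]

theorem W_e (ω : Env) (e : Site) (L : ℤ) (g : ℤ → ℤ) :
    (fwd (shiftE e ω)).W (-L) 0 (fun r => g (e.1 + r) - e.2) = wt ω (e.1 - L) e.1 g := by
  show wt (shiftE e ω) (-L) 0 (fun r => g (e.1 + r) - e.2) = _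
  have e3 : (fun r => (fun r => g (e.1 + r) - e.2) (r - e.1) + e.2) = g := by
    funext r
    simp only
    rw [show e.1 + (r - e.1) = r by ring]
    ring
  rw [wt_shift, e3, zero_add, show -L + e.1 = e.1 - L by ring]

theorem TT_e (ω : Env) (e : Site) (L y : ℤ) :
    (fwd (shiftE e ω)).TT (-L, y - e.2) (0, 0) = T ω (e.1 - L, y) e := by
  show T (shiftE e ω) (-L, y - e.2) (0, 0) = _
  rw [T_shift]
  have e4 : ((0, 0) : Site) + e = e := by ext <;> simp
  have e5 : ((-L, y - e.2) : Site) + e = (e.1 - L, y) := by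
    ext
    · simp; ring
    · simp
  rw [e4, e5]

/-- The conclusion of `T_DEP2` with the constant `C3`. -/
def DEPc (q C3 : ℝ) : Prop :=
  ∀ (P P' : PS) (K0 x : ℝ) (Xc : ℤ) (b : ℕ) (g : ℤ → ℤ), 1 ≤ K0 → 1 ≤ x → 16 ≤ Xc →
    4 * Xc ≤ 4 ^ b → 1 ≤ b → GSide P q K0 Xc b b b → GSide P' q K0 Xc b b b →
    IsPath (-lv (b + 1)) 0 g → g 0 = 0 → |(g (-lv (b + 1)) : ℝ)| ≤ x * 16 ^ b →
    2 * |g (-lv (b + 1))| ≤ Xc * 16 ^ b →
    P.W (-lv (b + 1)) 0 g ≤ P'.TT (-lv (b + 1), g (-lv (b + 1))) (0, 0) +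
      C3 * (K0 + x) ^ 2 * 4 ^ b

theorem dep_o {q C3 kap x : ℝ} (hDEP : DEPc q C3) (h_GSI : T_GSI) {ω ω' : Env} {o e : Site}
    {N b : ℕ} {Xc : ℤ} (hN : e.1 - o.1 = N) (hlv : lv (b + 1) ≤ N)
    (hQ : ∀ z : Site, o.1 + lv (b + 1) < z.1 → ω z = ω' z) (hkap : 1 ≤ kap) (hx : 1 ≤ x)
    (hX : 16 ≤ Xc) (hX4 : 4 * Xc ≤ 4 ^ b) (hb : 1 ≤ b) (hG : GN q kap Xc b b b (shiftE o ω))
    (hG' : GN q kap Xc b b b (shiftE o ω')) {g : ℤ → ℤ} (hg : Geod ω o e g)
    (hcr : 2 * |g (o.1 + lv (b + 1)) - o.2| ≤ Xc * 16 ^ b)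
    (hpos : |((g (o.1 + lv (b + 1)) - o.2 : ℤ) : ℝ)| ≤ x * 16 ^ b) :
    T ω o e - T ω' o e ≤ C3 * (kap + x) ^ 2 * 4 ^ b := by
  set L := lv (b + 1) with hL
  have hL0 : 0 < L := lv_pos _
  have hs := side_o hN hg hL0.le hlv
  have h1 := hDEP (bwd (shiftE o ω)) (bwd (shiftE o ω')) kap x Xc b
    (fun r => g (o.1 - r) - o.2) hkap hx hX hX4 hb (h_GSI q _ _ _ _ _ _ le_rfl hG).2
    (h_GSI q _ _ _ _ _ _ le_rfl hG').2 hs.1 (by
      simp only [sub_zero]
      rw [hg.1.2.1]; ring) (by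
      simp only [sub_neg_eq_add]
      exact hpos) (by
      simp only [sub_neg_eq_add]
      exact hcr)
  simp only [sub_neg_eq_add] at h1
  rw [W_o, TT_o] at h1
  have h2 := wt_add ω (s := o.1) (m := o.1 + L) (t := e.1) (by omega) (by omega) g
  have h3 : wt ω (o.1 + L) e.1 g = wt ω' (o.1 + L) e.1 g := by
    refine wt_congr fun r hr1 hr2 => ?_
    exact hQ (r, g r) hr1
  have c1 : Conn o (o.1 + L, g (o.1 + L)) g := hg.1.left (by omega)
  have c2 : Conn (o.1 + L, g (o.1 + L)) e g := hg.1.right (by omega)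
  have h4 := T_superadd ω' (c1.reach (by simp only; omega)) (c2.reach (by simp only; omega))
  have h5 := le_T ω' (u := (o.1 + L, g (o.1 + L))) (v := e) (by simp only; omega) c2
  have h6 := hg.2
  simp only at h5
  linarith

theorem dep_e {q C3 kap x : ℝ} (hDEP : DEPc q C3) (h_GSI : T_GSI) {ω ω' : Env} {o e : Site}
    {N b : ℕ} {Xc : ℤ} (hN : e.1 - o.1 = N) (hlv : lv (b + 1) ≤ N)
    (hQ : ∀ z : Site, z.1 ≤ e.1 - lv (b + 1) → ω z = ω' z) (hkap : 1 ≤ kap) (hx : 1 ≤ x)
    (hX : 16 ≤ Xc) (hX4 : 4 * Xc ≤ 4 ^ b) (hb : 1 ≤ b) (hG : GN q kap Xc b b b (shiftE e ω))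
    (hG' : GN q kap Xc b b b (shiftE e ω')) {g : ℤ → ℤ} (hg : Geod ω o e g)
    (hcr : 2 * |g (e.1 - lv (b + 1)) - e.2| ≤ Xc * 16 ^ b)
    (hpos : |((g (e.1 - lv (b + 1)) - e.2 : ℤ) : ℝ)| ≤ x * 16 ^ b) :
    T ω o e - T ω' o e ≤ C3 * (kap + x) ^ 2 * 4 ^ b := by
  set L := lv (b + 1) with hL
  have hL0 : 0 < L := lv_pos _
  have hs := side_e hN hg hL0.le hlv
  have hel : e.1 + -L = e.1 - L := by ring
  have h1 := hDEP (fwd (shiftE e ω)) (fwd (shiftE e ω')) kap x Xc b
    (fun r => g (e.1 + r) - e.2) hkap hx hX hX4 hb (h_GSI q _ _ _ _ _ _ le_rfl hG).1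
    (h_GSI q _ _ _ _ _ _ le_rfl hG').1 hs.1 (by
      simp only [add_zero]
      rw [hg.1.2.2]; ring) (by
      show |((g (e.1 + -L) - e.2 : ℤ) : ℝ)| ≤ x * 16 ^ b
      rw [hel]
      exact hpos) (by
      show 2 * |g (e.1 + -L) - e.2| ≤ Xc * 16 ^ b
      rw [hel]
      exact hcr)
  have h1' : (fwd (shiftE e ω)).W (-L) 0 (fun r => g (e.1 + r) - e.2) ≤
      (fwd (shiftE e ω')).TT (-L, g (e.1 + -L) - e.2) (0, 0) + C3 * (kap + x) ^ 2 * 4 ^ b := h1
  rw [W_e, TT_e, hel] at h1'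
  have h2 := wt_add ω (s := o.1) (m := e.1 - L) (t := e.1) (by omega) (by omega) g
  have h3 : wt ω o.1 (e.1 - L) g = wt ω' o.1 (e.1 - L) g := by
    refine wt_congr fun r hr1 hr2 => ?_
    exact hQ (r, g r) hr2
  have c1 : Conn o (e.1 - L, g (e.1 - L)) g := hg.1.left (by omega)
  have c2 : Conn (e.1 - L, g (e.1 - L)) e g := hg.1.right (by omega)
  have h4 := T_superadd ω' (c1.reach (by simp only; omega)) (c2.reach (by simp only; omega))
  have h5 := le_T ω' (u := o) (v := (e.1 - L, g (e.1 - L))) (by simp only; omega) c1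
  have h6 := hg.2
  simp only at h5
  linarith

theorem exp_cmp {c K s' a s y : ℝ} (hc : 0 < c) (hK : 0 < K) (hs : s ≤ s') (ha0 : 0 ≤ a)
    (ha : a ≤ c / K ^ s') (hy : 1 ≤ y) :
    Real.exp (-(c * (y / K) ^ s')) ≤ Real.exp (-(a * y ^ s)) := by
  apply Real.exp_le_exp.2
  have h1 : y ^ s ≤ y ^ s' := Real.rpow_le_rpow_of_exponent_le hy hs
  have h2 : (y / K) ^ s' = y ^ s' / K ^ s' := Real.div_rpow (by linarith) hK.le _
  have h3 : a * y ^ s ≤ c / K ^ s' * y ^ s' := by gcongr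
  rw [h2]
  have h4 : c * (y ^ s' / K ^ s') = c / K ^ s' * y ^ s' := by ring
  linarith

theorem mp_le' {Ω : Type} [MeasurableSpace Ω] {μ : Measure Ω} {q : ℝ} {f : Ω → Env}
    (hf : MeasurePreserving f μ (PE q)) (S : Set Env) : μ (f ⁻¹' S) ≤ PE q S := by
  calc μ (f ⁻¹' S) ≤ μ (f ⁻¹' (toMeasurable (PE q) S)) :=
        measure_mono (Set.preimage_mono (subset_toMeasurable _ _))
    _ = PE q (toMeasurable (PE q) S) :=
        hf.measure_preimage (measurableSet_toMeasurable _ _).nullMeasurableSet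
    _ = PE q S := measure_toMeasurable _

theorem pf_DFT (h_BA : B_BA) (h_TFL : T_TFL) (h_PGN : T_PGN) (h_RGA : T_RGA) (h_PCR : T_PCR)
    (h_CHX : T_CHX) (h_GSI : T_GSI) (h_DEP2 : T_DEP2) : T_DFT := by
  intro q c0 hq0 hq1 hc0 hc01 hLT hIN
  obtain ⟨Ct, ct, st, Nt, hCt, hct, hst, hTFL⟩ := h_TFL q c0 hq0 hq1 hc0 hc01 hLT hIN
  obtain ⟨A, cl, hA, hcl, hLT1⟩ := hLT
  obtain ⟨Cu, cu, hCu, hcu, hBA⟩ := h_BA q hq0 hq1 1 one_pos
  obtain ⟨Cp, cp, s2, hCp, hcp, hs2, hPGN⟩ := h_PGN q hq0 hq1 hIN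
  obtain ⟨Cr, cr, hCr, hcr, hPCR⟩ := h_PCR q c0 hq0 hq1 hc0 hc01
  obtain ⟨C3, hC3, hDEP⟩ := h_DEP2 q hq0 hq1
  obtain ⟨N1, hCHX⟩ := h_CHX c0 1 hc0 hc01
  obtain ⟨N2, hRGA⟩ := h_RGA q c0 0 hq0 hq1 hc0 hc01 le_rfl
  have hsg := sg_pos hq0 hq1
  obtain ⟨s, hs⟩ : ∃ s : ℝ, s = min (min (s2 / 2) (st / 2)) 1 := ⟨_, rfl⟩
  have hs0 : 0 < s := by
    rw [hs]; exact lt_min (lt_min (by linarith) (by linarith)) one_pos
  have hsa : s ≤ s2 / 2 := by rw [hs]; exact (min_le_left _ _).trans (min_le_left _ _)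
  have hsb : s ≤ st / 2 := by rw [hs]; exact (min_le_left _ _).trans (min_le_right _ _)
  have hsc : s ≤ 1 := by rw [hs]; exact min_le_right _ _
  obtain ⟨c, hc0', ha1, ha2, ha3, ha4, ha5, ha6⟩ : ∃ c : ℝ, 0 < c ∧
      c ≤ cp / (64 * C3) ^ (s2 / 2) ∧ c ≤ ct / (64 * C3) ^ (st / 2) ∧
      c ≤ cl / 26 ^ (3 / 2 : ℝ) ∧ c ≤ cu / 52 ^ (1 : ℝ) ∧ c ≤ cr ∧ c ≤ ct := by
    refine ⟨min (min (min (cp / (64 * C3) ^ (s2 / 2)) (ct / (64 * C3) ^ (st / 2)))
      (min (cl / 26 ^ (3 / 2 : ℝ)) (cu / 52 ^ (1 : ℝ)))) (min cr ct), ?_, ?_, ?_, ?_, ?_, ?_, ?_⟩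
    · exact lt_min (lt_min (lt_min (by positivity) (by positivity))
        (lt_min (by positivity) (by positivity))) (lt_min hcr hct)
    · exact (min_le_left _ _).trans ((min_le_left _ _).trans (min_le_left _ _))
    · exact (min_le_left _ _).trans ((min_le_left _ _).trans (min_le_right _ _))
    · exact (min_le_left _ _).trans ((min_le_right _ _).trans (min_le_left _ _))
    · exact (min_le_left _ _).trans ((min_le_right _ _).trans (min_le_right _ _))
    · exact (min_le_right _ _).trans (min_le_left _ _)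
    · exact (min_le_right _ _).trans (min_le_right _ _)
  obtain ⟨y0, hy0⟩ : ∃ y0 : ℝ, y0 = 1 + 64 * C3 + 13 * sg q := ⟨_, rfl⟩
  obtain ⟨C, hC⟩ : ∃ C : ℝ, C = 2 * (Cp + Cr + Ct + A + Cu) + Real.exp (c * y0 ^ s) := ⟨_, rfl⟩
  have hexpy0 := Real.exp_pos (c * y0 ^ s)
  have hC0 : 0 < C := by rw [hC]; positivity
  refine ⟨C, c, s, max (max N1 N2) (max Nt 1), hC0, hc0', hs0, ?_⟩
  intro N o e b Q hN hEP hNb hbN hQ Ω _ μ _ X X' hX hX' hXX' y hy
  have hN1 : N1 ≤ N := le_trans (le_max_left _ _) (le_trans (le_max_left _ _) hN)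
  have hN2 : N2 ≤ N := le_trans (le_max_right _ _) (le_trans (le_max_left _ _) hN)
  have hNt : Nt ≤ N := le_trans (le_max_left _ _) (le_trans (le_max_right _ _) hN)
  have hN3 : 1 ≤ N := le_trans (le_max_right _ _) (le_trans (le_max_right _ _) hN)
  have hNr : (1 : ℝ) ≤ N := by exact_mod_cast hN3
  have hN0 : (0 : ℝ) < N := by linarith
  have hlt : o.1 < e.1 := by
    have := hEP.n
    omega
  have hdt : dt o e = N := by
    unfold dt
    rw [hEP.n]
    simp
  have hE1 := Real.exp_pos (-(c * y ^ s))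
  have hE2 := Real.exp_pos (-(N : ℝ) ^ c)
  rcases lt_or_ge y y0 with hys | hyb
  · have h1 : (1 : ℝ) ≤ C * Real.exp (-(c * y ^ s)) + C * Real.exp (-(N : ℝ) ^ c) := by
      have h2 : (1 : ℝ) ≤ Real.exp (c * y0 ^ s) * Real.exp (-(c * y ^ s)) := by
        rw [← Real.exp_add]
        apply Real.one_le_exp
        have : y ^ s ≤ y0 ^ s := Real.rpow_le_rpow hy hys.le hs0.le
        nlinarith
      have h3 : Real.exp (c * y0 ^ s) * Real.exp (-(c * y ^ s)) ≤ C * Real.exp (-(c * y ^ s)) := by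
        apply mul_le_mul_of_nonneg_right _ hE1.le
        rw [hC]
        have : 0 ≤ 2 * (Cp + Cr + Ct + A + Cu) := by positivity
        linarith
      have h4 := mul_pos hC0 hE2
      linarith
    refine prob_le_one.trans ?_
    rw [← ENNReal.ofReal_one]
    exact ENNReal.ofReal_le_ofReal h1
  have hy1 : 1 ≤ y := by
    have : 0 ≤ 64 * C3 + 13 * sg q := by positivity
    linarith
  have hy64 : 64 * C3 ≤ y := by
    have : 0 ≤ 1 + 13 * sg q := by positivity
    linarith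
  have hy13 : 13 * sg q ≤ y := by
    have : 0 ≤ 1 + 64 * C3 := by positivity
    linarith
  have h4b : (0 : ℝ) < 4 ^ b := by positivity
  -- a bad event for one environment is enough
  have hgen : ∀ Bad : Set Env, (PE q).real Bad ≤ (Cp + Cr + Ct + A + Cu) *
      Real.exp (-(c * y ^ s)) + (Cp + Cr + Ct + A + Cu) * Real.exp (-(N : ℝ) ^ c) →
      (∀ p, y * 4 ^ b ≤ |T (X p) o e - T (X' p) o e| → X p ∈ Bad ∨ X' p ∈ Bad) →
      μ {p | y * 4 ^ b ≤ |T (X p) o e - T (X' p) o e|} ≤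
      ENNReal.ofReal (C * Real.exp (-(c * y ^ s)) + C * Real.exp (-(N : ℝ) ^ c)) := by
    intro Bad hBad hsub
    have h1 : μ {p | y * 4 ^ b ≤ |T (X p) o e - T (X' p) o e|} ≤ PE q Bad + PE q Bad := by
      calc μ {p | y * 4 ^ b ≤ |T (X p) o e - T (X' p) o e|} ≤ μ (X ⁻¹' Bad ∪ X' ⁻¹' Bad) :=
            measure_mono fun p hp => hsub p hp
        _ ≤ μ (X ⁻¹' Bad) + μ (X' ⁻¹' Bad) := measure_union_le _ _
        _ ≤ _ := add_le_add (mp_le' hX Bad) (mp_le' hX' Bad)
    refine h1.trans ?_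
    have h2 := of_real_le hBad
    refine (add_le_add h2 h2).trans ?_
    rw [← ENNReal.ofReal_add (by positivity) (by positivity)]
    apply ENNReal.ofReal_le_ofReal
    rw [hC]
    have h3 := mul_pos hexpy0 hE1
    have h4 := mul_pos hexpy0 hE2
    linarith
  rcases lt_or_ge (N : ℤ) (lv (b + 2)) with hcase | hcase
  · -- case A
    have hN13 : (N : ℝ) ^ (1 / 3 : ℝ) ≤ 13 * 4 ^ b := by
      rw [show b + 2 = (b + 1) + 1 by ring, lv_succ] at hcase
      have h1 : (N : ℝ) ≤ 32 * 64 ^ (b + 1) := by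
        have : (N : ℤ) ≤ 32 * 64 ^ (b + 1) := hcase.le
        exact_mod_cast this
      have h2 : (32 : ℝ) * 64 ^ (b + 1) ≤ (13 * 4 ^ b) ^ 3 := by
        rw [mul_pow, ← pow_mul, mul_comm b 3, pow_mul, pow_succ]
        norm_num
        have : (0 : ℝ) < 64 ^ b := by positivity
        linarith
      calc (N : ℝ) ^ (1 / 3 : ℝ) ≤ ((13 * 4 ^ b : ℝ) ^ 3) ^ (1 / 3 : ℝ) :=
            Real.rpow_le_rpow hN0.le (h1.trans h2) (by norm_num)
        _ = 13 * 4 ^ b := by
            rw [← Real.rpow_natCast, ← Real.rpow_mul (by positivity)]; norm_num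
    have hNp : 0 < (N : ℝ) ^ (1 / 3 : ℝ) := by positivity
    set B1 : Set Env := {ω | T ω o e ≤ par q o e - y / 26 * dt o e ^ (1 / 3 : ℝ)} with hB1
    set B2 : Set Env := {ω | ∃ u v : Site, o.1 ≤ u.1 ∧ u.1 < v.1 ∧ v.1 ≤ o.1 + N ∧ Reach u v ∧
      (|dx o u| ≤ (N : ℝ) ^ (2 / 3 : ℝ) ∨ |dx o v| ≤ (N : ℝ) ^ (2 / 3 : ℝ)) ∧
      mu q * dt u v - sg q / 2 * dx u v ^ 2 / (dt u v + 1 * N) + y / 52 * (N : ℝ) ^ (1 / 3 : ℝ) ≤
        T ω u v} with hB2
    have p1 : (PE q).real B1 ≤ A * Real.exp (-(c * y ^ s)) := by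
      have h1 := hLT1 o e hEP.r hlt (by
        rw [hdt]
        exact hEP.d.trans (Real.rpow_le_rpow_of_exponent_le hNr (by norm_num))) (y / 26)
        (by positivity)
      refine h1.trans ?_
      apply mul_le_mul_of_nonneg_left _ hA.le
      rw [neg_mul]
      exact exp_cmp hcl (by norm_num) (by linarith) hc0'.le ha3 hy1
    have p2 : (PE q).real B2 ≤ Cu * Real.exp (-(c * y ^ s)) := by
      refine (hBA N hN3 o (y / 52) (by positivity)).trans ?_
      apply mul_le_mul_of_nonneg_left _ hCu.le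
      have h1 := exp_cmp (s' := 1) hcu (by norm_num : (0 : ℝ) < 52) hsc hc0'.le ha4 hy1
      rw [Real.rpow_one] at h1
      rw [neg_mul]
      exact h1
    refine hgen (B1 ∪ B2) ?_ ?_
    · refine (measureReal_union_le _ _).trans ?_
      have h1 : 0 ≤ (Cp + Cr + Ct) * Real.exp (-(c * y ^ s)) := by positivity
      have h2 : 0 ≤ (Cp + Cr + Ct + A + Cu) * Real.exp (-(N : ℝ) ^ c) := by positivity
      linarith
    · intro p hp
      by_contra hcon
      rw [not_or, Set.mem_union, Set.mem_union, not_or, not_or] at hcon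
      obtain ⟨⟨a1, a2⟩, ⟨b1, b2⟩⟩ := hcon
      have hdev : ∀ ω : Env, ω ∉ B1 → ω ∉ B2 → |T ω o e - par q o e| < y / 26 * (N : ℝ) ^ (1 / 3 : ℝ)
          := by
        intro ω n1 n2
        rw [abs_lt]
        constructor
        · by_contra h
          push Not at h
          apply n1
          rw [hB1]
          show T ω o e ≤ par q o e - y / 26 * dt o e ^ (1 / 3 : ℝ)
          rw [hdt]
          linarith
        · by_contra h
          push Not at h
          apply n2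
          rw [hB2]
          refine ⟨o, e, le_rfl, hlt, ?_, hEP.r, Or.inl ?_, ?_⟩
          · have := hEP.n; omega
          · have : dx o o = 0 := by unfold dx; simp
            rw [this, abs_zero]; positivity
          · have hd2 : dx o e ^ 2 / N ≤ (N : ℝ) ^ (1 / 3 : ℝ) := by
              rw [div_le_iff₀ hN0]
              calc dx o e ^ 2 = |dx o e| ^ 2 := (sq_abs _).symm
                _ ≤ ((N : ℝ) ^ (2 / 3 : ℝ)) ^ 2 := by
                    have := hEP.d
                    gcongr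
                _ = (N : ℝ) ^ (1 / 3 : ℝ) * N := by
                    rw [← Real.rpow_natCast, ← Real.rpow_mul hN0.le]
                    nth_rewrite 3 [← Real.rpow_one (N : ℝ)]
                    rw [← Real.rpow_add hN0]
                    norm_num
            rw [par_def, hdt] at h
            rw [hdt]
            have e1 : sg q / 2 * dx o e ^ 2 / ((N : ℝ) + 1 * N) = sg q / 4 * (dx o e ^ 2 / N) := by
              field_simp; ring
            have e2 : sg q / 2 * dx o e ^ 2 / N = sg q / 2 * (dx o e ^ 2 / N) := by ring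
            rw [e1]
            rw [e2] at h
            have e3 : sg q / 4 * (dx o e ^ 2 / N) ≤ sg q / 4 * (N : ℝ) ^ (1 / 3 : ℝ) := by gcongr
            have e4 : sg q / 4 * (N : ℝ) ^ (1 / 3 : ℝ) ≤ y / 52 * (N : ℝ) ^ (1 / 3 : ℝ) := by
              apply mul_le_mul_of_nonneg_right _ hNp.le
              linarith
            linarith
      have h1 := hdev _ a1 a2
      have h2 := hdev _ b1 b2
      have h3 : |T (X p) o e - T (X' p) o e| ≤ |T (X p) o e - par q o e| +
          |T (X' p) o e - par q o e| := by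
        have : T (X p) o e - T (X' p) o e = (T (X p) o e - par q o e) -
          (T (X' p) o e - par q o e) := by ring
        rw [this]
        exact abs_sub _ _
      have h4 : y / 26 * (N : ℝ) ^ (1 / 3 : ℝ) ≤ y / 26 * (13 * 4 ^ b) := by gcongr
      linarith
  · -- case B
    have hNb' : (N : ℝ) ^ c0 ≤ 64 ^ (b + 1) := by
      refine hNb.trans ?_
      exact pow_le_pow_right₀ (by norm_num) (by omega)
    obtain ⟨k1, k2, k3, k4, k5, k6⟩ := hCHX N (b + 1) hN1 hNb'
    obtain ⟨x, hx⟩ : ∃ x : ℝ, x = (y / (64 * C3)) ^ (1 / 2 : ℝ) := ⟨_, rfl⟩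
    have hy64' : 1 ≤ y / (64 * C3) := by
      rw [le_div_iff₀ (by positivity)]; linarith
    have hx1 : 1 ≤ x := by rw [hx]; exact Real.one_le_rpow hy64' (by norm_num)
    have hx2 : x ^ 2 = y / (64 * C3) := by
      rw [hx, ← Real.rpow_natCast, ← Real.rpow_mul (by positivity)]; norm_num
    have hxs : ∀ r : ℝ, x ^ r = (y / (64 * C3)) ^ (r / 2) := by
      intro r
      rw [hx, ← Real.rpow_mul (by positivity)]
      congr 1
      ring
    have hkey : C3 * (x + x) ^ 2 * 4 ^ (b + 1) < y * 4 ^ b := by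
      have : C3 * (x + x) ^ 2 * 4 ^ (b + 1) = 16 * C3 * x ^ 2 * 4 ^ b := by rw [pow_succ]; ring
      rw [this, hx2]
      have : 16 * C3 * (y / (64 * C3)) = y / 4 := by field_simp; norm_num
      rw [this]
      apply mul_lt_mul_of_pos_right _ h4b
      linarith
    have hT := hTFL N o e (b + 1) hNt hEP hNb' x (by linarith)
    have hRp : (PE q).real {ω | ¬ Crd q c0 o N ω} ≤ Cr * Real.exp (-(N : ℝ) ^ c) := by
      refine (to_real_le (by positivity) (hPCR o N hN3)).trans ?_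
      apply mul_le_mul_of_nonneg_left _ hCr.le
      apply Real.exp_le_exp.2
      have := Real.rpow_le_rpow_of_exponent_le hNr ha5
      linarith
    have hGp : ∀ z : Site, (PE q).real
        (shiftE z ⁻¹' {ω | ¬ GN q x (Xn c0 N) (b + 1) (b + 1) (b + 1) ω}) ≤
          Cp * Real.exp (-(c * y ^ s)) := by
      intro z
      have h1 := (mp_le (mp_shiftE q z)
        {ω | ¬ GN q x (Xn c0 N) (b + 1) (b + 1) (b + 1) ω}).trans
        (hPGN x (Xn c0 N) (b + 1) (b + 1) (b + 1) hx1 k4 k6 k1 le_rfl)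
      refine (to_real_le (by positivity) h1).trans ?_
      apply mul_le_mul_of_nonneg_left _ hCp.le
      rw [hxs s2]
      exact exp_cmp hcp (by positivity) hsa hc0'.le ha1 hy1
    have hTp : Ct * Real.exp (-(ct * x ^ st)) + Ct * Real.exp (-(N : ℝ) ^ ct) ≤
        Ct * Real.exp (-(c * y ^ s)) + Ct * Real.exp (-(N : ℝ) ^ c) := by
      have h1 : Real.exp (-(ct * x ^ st)) ≤ Real.exp (-(c * y ^ s)) := by
        rw [hxs st]
        exact exp_cmp hct (by positivity) hsb hc0'.le ha2 hy1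
      have h2 : Real.exp (-(N : ℝ) ^ ct) ≤ Real.exp (-(N : ℝ) ^ c) := by
        apply Real.exp_le_exp.2
        have := Real.rpow_le_rpow_of_exponent_le hNr ha6
        linarith
      gcongr
    have hlv2 : lv (b + 2) = 32 * 64 ^ (b + 1) := lv_succ (b + 1)
    have h64 : 64 ^ (b + 1) ≤ N := by
      rw [hlv2] at hcase
      have h1 : (0 : ℤ) < 64 ^ (b + 1) := by positivity
      have h2 : (64 : ℤ) ^ (b + 1) ≤ N := by linarith
      exact_mod_cast h2
    have h64r : (64 : ℝ) ^ (b + 1) ≤ N := by exact_mod_cast h64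
    have hrlx : ∀ ω, Crd q c0 o N ω → ∀ g, Geod ω o e g → Rlx (Xn c0 N) (b + 1) o e g := by
      intro ω hω g hg
      refine hRGA N o e ω (b + 1) hN2 hEP hω hNb' ?_ g ⟨hg.1, ?_⟩
      · first | exact h64r | exact h64
      · rw [zero_mul, sub_zero, hg.2]
    have hlvp : 0 < lv (b + 2) := lv_pos _
    have hlv33 : |lv (b + 2)| ≤ 33 * 64 ^ (b + 1) := by
      rw [abs_of_pos hlvp, hlv2]
      have : (0 : ℤ) < 64 ^ (b + 1) := by positivity
      linarith
    have hEn := hEP.n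
    rcases hQ with hQo | hQe
    · set TB : Set Env := {ω | ∃ (g : ℤ → ℤ) (r : ℤ), Geod ω o e g ∧ o.1 ≤ r ∧ r ≤ e.1 ∧
        r ≤ o.1 + lv (b + 1 + 1) ∧ x * 16 ^ (b + 1) ≤ |((g r - o.2 : ℤ) : ℝ)|} with hTB
      have hTBp : (PE q).real TB ≤ Ct * Real.exp (-(c * y ^ s)) + Ct * Real.exp (-(N : ℝ) ^ c) :=
        (to_real_le (by positivity) hT.1).trans hTp
      refine hgen ((TB ∪ (shiftE o ⁻¹' {ω | ¬ GN q x (Xn c0 N) (b + 1) (b + 1) (b + 1) ω})) ∪
        {ω | ¬ Crd q c0 o N ω}) ?_ ?_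
      · refine (measureReal_union_le _ _).trans ?_
        have h0 := measureReal_union_le (μ := PE q) TB
          (shiftE o ⁻¹' {ω | ¬ GN q x (Xn c0 N) (b + 1) (b + 1) (b + 1) ω})
        have h1 := hGp o
        have h2 : 0 ≤ (Cr + A + Cu) * Real.exp (-(c * y ^ s)) := by positivity
        have h3 : 0 ≤ (Cp + A + Cu) * Real.exp (-(N : ℝ) ^ c) := by positivity
        linarith
      · intro p hp
        by_contra hcon
        rw [not_or, Set.mem_union, Set.mem_union, Set.mem_union, Set.mem_union, not_or, not_or,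
          not_or, not_or] at hcon
        obtain ⟨⟨⟨a1, a2⟩, a3⟩, ⟨⟨b1, b2⟩, b3⟩⟩ := hcon
        have main : ∀ ω ω' : Env, ω ∉ TB →
            GN q x (Xn c0 N) (b + 1) (b + 1) (b + 1) (shiftE o ω) →
            GN q x (Xn c0 N) (b + 1) (b + 1) (b + 1) (shiftE o ω') → Crd q c0 o N ω →
            (∀ z ∉ Q, ω z = ω' z) → T ω o e - T ω' o e < y * 4 ^ b := by
          intro ω ω' n1 n2 n2' n3 hagree
          obtain ⟨g, hg1, hg2, _⟩ := T_attained ω hEP.r
          have hg : Geod ω o e g := ⟨hg1, hg2.symm⟩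
          have hR := hrlx ω n3 g hg o.1 (o.1 + lv (b + 2)) (b + 1) le_rfl le_rfl (by omega)
            (by omega) (by omega) (by
              rw [show o.1 + lv (b + 2) - o.1 = lv (b + 2) by ring]; exact hlv33)
          rw [hg.1.2.1] at hR
          refine lt_of_le_of_lt (dep_o (N := N) (b := b + 1) (Xc := Xn c0 N) hDEP h_GSI hEn hcase
            ?_ hx1 hx1 k4 k5 k1 n2 n2' hg hR ?_) hkey
          · intro z hz
            apply hagree
            intro hzQ
            have := hQo z hzQ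
            have h1 : o.1 + lv (b + 1 + 1) < z.1 := hz
            rw [show b + 1 + 1 = b + 2 by ring] at h1
            omega
          · by_contra h
            push Not at h
            apply n1
            exact ⟨g, o.1 + lv (b + 1 + 1), hg, by
              rw [show b + 1 + 1 = b + 2 by ring]; omega, by
              rw [show b + 1 + 1 = b + 2 by ring]; omega, le_rfl, h.le⟩
        have a2' : GN q x (Xn c0 N) (b + 1) (b + 1) (b + 1) (shiftE o (X p)) := by
          by_contra h; exact a2 h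
        have b2' : GN q x (Xn c0 N) (b + 1) (b + 1) (b + 1) (shiftE o (X' p)) := by
          by_contra h; exact b2 h
        have a3' : Crd q c0 o N (X p) := by by_contra h; exact a3 h
        have b3' : Crd q c0 o N (X' p) := by by_contra h; exact b3 h
        have m1 := main _ _ a1 a2' b2' a3' (hXX' p)
        have m2 := main _ _ b1 b2' a2' b3' (fun z hz => (hXX' p z hz).symm)
        have m3 : |T (X p) o e - T (X' p) o e| < y * 4 ^ b := by
          rw [abs_lt]; constructor <;> linarith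
        linarith
    · set TB : Set Env := {ω | ∃ (g : ℤ → ℤ) (r : ℤ), Geod ω o e g ∧ o.1 ≤ r ∧ r ≤ e.1 ∧
        e.1 - lv (b + 1 + 1) ≤ r ∧ x * 16 ^ (b + 1) ≤ |((g r - e.2 : ℤ) : ℝ)|} with hTB
      have hTBp : (PE q).real TB ≤ Ct * Real.exp (-(c * y ^ s)) + Ct * Real.exp (-(N : ℝ) ^ c) :=
        (to_real_le (by positivity) hT.2).trans hTp
      refine hgen ((TB ∪ (shiftE e ⁻¹' {ω | ¬ GN q x (Xn c0 N) (b + 1) (b + 1) (b + 1) ω})) ∪
        {ω | ¬ Crd q c0 o N ω}) ?_ ?_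
      · refine (measureReal_union_le _ _).trans ?_
        have h0 := measureReal_union_le (μ := PE q) TB
          (shiftE e ⁻¹' {ω | ¬ GN q x (Xn c0 N) (b + 1) (b + 1) (b + 1) ω})
        have h1 := hGp e
        have h2 : 0 ≤ (Cr + A + Cu) * Real.exp (-(c * y ^ s)) := by positivity
        have h3 : 0 ≤ (Cp + A + Cu) * Real.exp (-(N : ℝ) ^ c) := by positivity
        linarith
      · intro p hp
        by_contra hcon
        rw [not_or, Set.mem_union, Set.mem_union, Set.mem_union, Set.mem_union, not_or, not_or,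
          not_or, not_or] at hcon
        obtain ⟨⟨⟨a1, a2⟩, a3⟩, ⟨⟨b1, b2⟩, b3⟩⟩ := hcon
        have main : ∀ ω ω' : Env, ω ∉ TB →
            GN q x (Xn c0 N) (b + 1) (b + 1) (b + 1) (shiftE e ω) →
            GN q x (Xn c0 N) (b + 1) (b + 1) (b + 1) (shiftE e ω') → Crd q c0 o N ω →
            (∀ z ∉ Q, ω z = ω' z) → T ω o e - T ω' o e < y * 4 ^ b := by
          intro ω ω' n1 n2 n2' n3 hagree
          obtain ⟨g, hg1, hg2, _⟩ := T_attained ω hEP.r
          have hg : Geod ω o e g := ⟨hg1, hg2.symm⟩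
          have hR := hrlx ω n3 g hg e.1 (e.1 - lv (b + 2)) (b + 1) le_rfl (by omega) le_rfl
            (by omega) (by omega) (by
              rw [show e.1 - lv (b + 2) - e.1 = -lv (b + 2) by ring, abs_neg]; exact hlv33)
          rw [hg.1.2.2] at hR
          refine lt_of_le_of_lt (dep_e (N := N) (b := b + 1) (Xc := Xn c0 N) hDEP h_GSI hEn hcase
            ?_ hx1 hx1 k4 k5 k1 n2 n2' hg hR ?_) hkey
          · intro z hz
            apply hagree
            intro hzQ
            have := hQe z hzQ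
            have h1 : z.1 ≤ e.1 - lv (b + 1 + 1) := hz
            rw [show b + 1 + 1 = b + 2 by ring] at h1
            omega
          · by_contra h
            push Not at h
            apply n1
            exact ⟨g, e.1 - lv (b + 1 + 1), hg, by
              rw [show b + 1 + 1 = b + 2 by ring]; omega, by
              rw [show b + 1 + 1 = b + 2 by ring]; omega, le_rfl, h.le⟩
        have a2' : GN q x (Xn c0 N) (b + 1) (b + 1) (b + 1) (shiftE e (X p)) := by
          by_contra h; exact a2 h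
        have b2' : GN q x (Xn c0 N) (b + 1) (b + 1) (b + 1) (shiftE e (X' p)) := by
          by_contra h; exact b2 h
        have a3' : Crd q c0 o N (X p) := by by_contra h; exact a3 h
        have b3' : Crd q c0 o N (X' p) := by by_contra h; exact b3 h
        have m1 := main _ _ a1 a2' b2' a3' (hXX' p)
        have m2 := main _ _ b1 b2' a2' b3' (fun z hz => (hXX' p z hz).symm)
        have m3 : |T (X p) o e - T (X' p) o e| < y * 4 ^ b := by
          rw [abs_lt]; constructor <;> linarith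
        linarith

end Pool.Agent.H22.ND
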