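import Pool.Agent.H22.ND.TFG

/-!
# Transversal fluctuations of the leftmost geodesic (ITP)
-/

open MeasureTheory ProbabilityTheory
open scoped ENNReal
open Pool.Agent.H99.NS Pool.Agent.H22.LPP Pool.Agent.H95.INS Pool.Agent.H76.ND

namespace Pool.Agent.H22.ND

theorem two_lv {K : ℕ} (hK : 1 ≤ K) : 2 * lv K = 64 ^ K := by
  unfold lv
  obtain ⟨k, rfl⟩ : ∃ k, K = k + 1 := ⟨K - 1, by omega⟩
  rw [Nat.add_sub_cancel, pow_succ]
  ring

theorem lv_pos (K : ℕ) : 0 < lv K := by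
  unfold lv; positivity

theorem reach_oe {K : ℕ} (hK : 1 ≤ K) : Reach (-lv K, 0) (lv K, 0) := by
  have h := lv_pos K
  refine ⟨?_, ?_⟩
  · simp only [sub_self, abs_zero]; omega
  · simp only [sub_self, add_zero, sub_neg_eq_add]
    exact ⟨lv K, rfl⟩

theorem dt_oe {K : ℕ} (hK : 1 ≤ K) : dt (-lv K, 0) (lv K, 0) = (64 : ℝ) ^ K := by
  unfold dt
  have : lv K - -lv K = 64 ^ K := by rw [← two_lv hK]; ring
  simp only
  rw [this]
  push_cast
  rfl

theorem rpow_64 (K : ℕ) : ((64 : ℝ) ^ K) ^ (2 / 3 : ℝ) = 16 ^ K := by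
  rw [← Real.rpow_natCast, ← Real.rpow_natCast, ← Real.rpow_mul (by norm_num)]
  rw [show (64 : ℝ) = 16 ^ (3 / 2 : ℝ) by
    rw [show (16 : ℝ) = 4 ^ (2 : ℝ) by norm_num, ← Real.rpow_mul (by norm_num)]
    norm_num]
  rw [← Real.rpow_mul (by norm_num)]
  congr 1
  ring

theorem pf_ITP (h_TOP : T_TOP) (h_LAM : B_LAM) : T_ITP := by
  intro q hq0 hq1 hLT
  obtain ⟨C, c, hC, hc, h⟩ := h_TOP q hq0 hq1 hLT
  have key : ∀ K : ℕ, 1 ≤ K → ∀ D : ℝ, 0 ≤ D →
      PE q {ω | ∃ t, -lv K ≤ t ∧ t ≤ lv K ∧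
        D * 16 ^ K < |(Lam ω (-lv K, 0) (lv K, 0) t : ℝ)|} ≤
      ENNReal.ofReal (C * Real.exp (-(c * D ^ 2))) := by
    intro K hK D hD
    have hlt : ((-lv K, 0) : Site).1 < ((lv K, 0) : Site).1 := by
      have := lv_pos K
      simp only; omega
    have h1 := h (-lv K, 0) (lv K, 0) (reach_oe hK) hlt (by
      have : dx (-lv K, 0) (lv K, 0) = 0 := by unfold dx; simp
      rw [this, abs_zero]
      have := dt_pos hlt
      positivity) D hD
    refine le_trans (measure_mono ?_) h1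
    rintro ω ⟨t, ht1, ht2, ht3⟩
    refine ⟨Lam ω (-lv K, 0) (lv K, 0), t, (h_LAM ω _ _ (reach_oe hK)).1, ht1, ht2, ?_⟩
    rw [dt_oe hK, rpow_64, sub_zero]
    exact ht3.le
  refine ⟨?_, ?_⟩
  · refine ⟨C * (1 + 4 / c + 1), 1, 1, by positivity, one_pos, ?_⟩
    intro k hk j hj n _
    have hj' : -lv k ≤ j ∧ j ≤ lv k := by
      have h1 : |j| ≤ lv k := by
        refine hj.trans ?_
        unfold lv
        have : (0 : ℤ) < 64 ^ (k - 1) := by positivity
        linarith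
      exact abs_le.1 h1
    refine le_trans (measure_mono ?_) ((key k hk (2 ^ n) (by positivity)).trans ?_)
    · intro ω hω
      refine ⟨j, hj'.1, hj'.2, ?_⟩
      have h2 : (2 : ℤ) ^ n * 16 ^ k < |Lam ω (-lv k, 0) (lv k, 0) j| := hω
      rw [← Int.cast_abs]
      exact_mod_cast h2
    · apply ENNReal.ofReal_le_ofReal
      rw [mul_assoc]
      apply mul_le_mul_of_nonneg_left _ hC.le
      have e1 : ((2 : ℝ) ^ n) ^ 2 = 4 ^ n := by
        rw [← pow_mul, mul_comm, pow_mul]; norm_num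
      rw [e1, Real.exp_neg]
      have h4 : (0 : ℝ) < 4 ^ n := by positivity
      have e2 : c * 4 ^ n ≤ Real.exp (c * 4 ^ n) := by
        have := Real.add_one_le_exp (c * (4 : ℝ) ^ n)
        linarith
      have e3 : (Real.exp (c * 4 ^ n))⁻¹ ≤ (c * 4 ^ n)⁻¹ := by
        apply inv_anti₀ (by positivity) e2
      refine e3.trans ?_
      have e4 : (c * (4 : ℝ) ^ n)⁻¹ = 1 / c * (1 / 4) ^ n := by
        rw [mul_inv, one_div, one_div, inv_pow]
      rw [e4]
      have h5 : (0 : ℝ) < (1 / 4) ^ n := by positivity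
      apply mul_le_mul_of_nonneg_right _ h5.le
      have : 0 < 1 / c := by positivity
      have e5 : 4 / c = 4 * (1 / c) := by ring
      rw [e5]
      linarith
  · refine ⟨C, c, 2, hC, hc, by norm_num, 1, ?_⟩
    intro K hK D hD
    have h1 := key K hK D hD
    unfold Pool.Agent.H95.ND.tl
    rw [show (D : ℝ) ^ (2 : ℝ) = D ^ 2 from Real.rpow_natCast D 2]
    exact h1

end Pool.Agent.H22.ND
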