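import Pool.Agent.H22.LPP.All
import Pool.Agent.H76.ND.Targets2

/-!
# Transversal fluctuations (TFG, TOP, ITP)
-/

open MeasureTheory ProbabilityTheory
open scoped ENNReal
open Pool.Agent.H99.NS Pool.Agent.H22.LPP Pool.Agent.H95.INS Pool.Agent.H76.ND

namespace Pool.Agent.H22.ND

theorem pf_TFG (h_BA : B_BA) : T_TFG := by
  intro q hq0 hq1 ⟨A, c2, hA, hc2, hLT⟩
  obtain ⟨C1, c1, hC1, hc1, hBA⟩ := h_BA q hq0 hq1 (1 / 10) (by norm_num)
  have hsg := sg_pos hq0 hq1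
  obtain ⟨c, hc⟩ : ∃ c : ℝ, c = min (c1 * sg q / 8) (c2 * (sg q / 10) ^ (3 / 2 : ℝ)) := ⟨_, rfl⟩
  have hc0 : 0 < c := by rw [hc]; exact lt_min (by positivity) (by positivity)
  have hca : c ≤ c1 * sg q / 8 := by rw [hc]; exact min_le_left _ _
  have hcb : c ≤ c2 * (sg q / 10) ^ (3 / 2 : ℝ) := by rw [hc]; exact min_le_right _ _
  refine ⟨2 * C1 + A + Real.exp c, c, by positivity, hc0, ?_⟩
  intro u v huv hlt hdx z hz h3
  rcases lt_or_ge z 1 with hz1 | hz1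
  · refine measureReal_le_one.trans ?_
    have h1 : (1 : ℝ) ≤ Real.exp c * Real.exp (-(c * z ^ 2)) := by
      rw [← Real.exp_add]
      apply Real.one_le_exp
      have hz2 : z ^ 2 ≤ 1 := pow_le_one₀ hz hz1.le
      have := mul_le_mul_of_nonneg_left hz2 hc0.le
      linarith
    refine h1.trans ?_
    apply mul_le_mul_of_nonneg_right _ (Real.exp_pos _).le
    linarith
  set N := dt u v with hN
  have hN1 : 1 ≤ N := one_le_dt hlt
  have hN0 : 0 < N := by linarith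
  obtain ⟨L, hL'⟩ : ∃ L : ℕ, (L : ℤ) = v.1 - u.1 := ⟨(v.1 - u.1).toNat, by omega⟩
  have hL1 : 1 ≤ L := by omega
  have hLr : (L : ℝ) = N := by
    rw [hN]
    unfold dt
    rw [← hL']
    simp
  set Y : ℝ := sg q * z ^ 2 / 8 with hY
  have hY0 : 0 ≤ Y := by positivity
  set b : Site := (u.1, v.2) with hb
  set S1 : Set Env := {ω | ∃ u' v' : Site, u.1 ≤ u'.1 ∧ u'.1 < v'.1 ∧ v'.1 ≤ u.1 + L ∧
    Reach u' v' ∧ (|dx u u'| ≤ (L : ℝ) ^ (2 / 3 : ℝ) ∨ |dx u v'| ≤ (L : ℝ) ^ (2 / 3 : ℝ)) ∧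
      mu q * dt u' v' - sg q / 2 * dx u' v' ^ 2 / (dt u' v' + 1 / 10 * L) +
        Y * (L : ℝ) ^ (1 / 3 : ℝ) ≤ T ω u' v'} with hS1
  set S2 : Set Env := {ω | ∃ u' v' : Site, b.1 ≤ u'.1 ∧ u'.1 < v'.1 ∧ v'.1 ≤ b.1 + L ∧
    Reach u' v' ∧ (|dx b u'| ≤ (L : ℝ) ^ (2 / 3 : ℝ) ∨ |dx b v'| ≤ (L : ℝ) ^ (2 / 3 : ℝ)) ∧
      mu q * dt u' v' - sg q / 2 * dx u' v' ^ 2 / (dt u' v' + 1 / 10 * L) +
        Y * (L : ℝ) ^ (1 / 3 : ℝ) ≤ T ω u' v'} with hS2
  set x : ℝ := sg q / 10 * z ^ 2 with hx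
  have hx0 : 0 ≤ x := by positivity
  set S3 : Set Env := {ω | T ω u v ≤ par q u v - x * dt u v ^ (1 / 3 : ℝ)} with hS3
  have hN13 : 0 < N ^ (1 / 3 : ℝ) := by positivity
  have hN23 : 0 < N ^ (2 / 3 : ℝ) := by positivity
  have hN43 : (N ^ (2 / 3 : ℝ)) ^ 2 / N = N ^ (1 / 3 : ℝ) := by
    rw [div_eq_iff hN0.ne', sq, ← Real.rpow_add hN0]
    nth_rewrite 3 [← Real.rpow_one N]
    rw [← Real.rpow_add hN0]
    norm_num
  have hsub : {ω | ∃ (g : ℤ → ℤ) (r : ℤ), Geod ω u v g ∧ u.1 ≤ r ∧ r ≤ v.1 ∧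
      z * N ^ (2 / 3 : ℝ) ≤ |((g r - u.2 : ℤ) : ℝ)|} ⊆ (S1 ∪ S2) ∪ S3 := by
    intro ω hω
    obtain ⟨g, r, ⟨hg, hgT⟩, hr1, hr2, hr3⟩ := hω
    by_contra hcon
    rw [Set.mem_union, Set.mem_union, not_or, not_or] at hcon
    obtain ⟨⟨n1, n2⟩, n3⟩ := hcon
    have hzN : 0 < z * N ^ (2 / 3 : ℝ) := by positivity
    have hr1' : u.1 < r := by
      rcases eq_or_lt_of_le hr1 with h | h
      · exfalso
        rw [← h, hg.2.1] at hr3
        simp at hr3
        linarith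
      · exact h
    have hr2' : r < v.1 := by
      rcases eq_or_lt_of_le hr2 with h | h
      · exfalso
        rw [h, hg.2.2] at hr3
        have e : |((v.2 - u.2 : ℤ) : ℝ)| = |dx u v| := rfl
        rw [e] at hr3
        have := abs_nonneg (dx u v)
        linarith
      · exact h
    set p : Site := (r, g r) with hp
    have q1 : Conn u p g := hg.left hr2
    have q2 : Conn p v g := hg.right hr1
    have hT : T ω u v ≤ T ω u p + T ω p v := by
      rw [← hgT, wt_add ω hr1 hr2]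
      exact add_le_add (le_T ω hr1 q1) (le_T ω hr2 q2)
    have hL0 : (0 : ℝ) ≤ (L : ℝ) ^ (2 / 3 : ℝ) := by positivity
    have e1 : T ω u p < mu q * dt u p - sg q / 2 * dx u p ^ 2 / (dt u p + 1 / 10 * L) +
        Y * (L : ℝ) ^ (1 / 3 : ℝ) := by
      by_contra h
      push Not at h
      apply n1
      rw [hS1]
      refine ⟨u, p, le_rfl, hr1', by simp only [hp]; omega, q1.reach hr1, Or.inl ?_, h⟩
      have : dx u u = 0 := by unfold dx; simp
      rw [this, abs_zero]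
      exact hL0
    have e2 : T ω p v < mu q * dt p v - sg q / 2 * dx p v ^ 2 / (dt p v + 1 / 10 * L) +
        Y * (L : ℝ) ^ (1 / 3 : ℝ) := by
      by_contra h
      push Not at h
      apply n2
      rw [hS2]
      refine ⟨p, v, hr1, hr2', by simp only [hb]; omega, q2.reach hr2, Or.inr ?_, h⟩
      have : dx b v = 0 := by unfold dx; simp [hb]
      rw [this, abs_zero]
      exact hL0
    have e3 : par q u v - x * N ^ (1 / 3 : ℝ) < T ω u v := by
      by_contra h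
      push Not at h
      exact n3 h
    rw [hLr] at e1 e2
    rw [par_def, ← hN] at e3
    have d1 : 0 < dt u p := dt_pos hr1'
    have d2 : 0 < dt p v := dt_pos hr2'
    have d3 : dt u p + dt p v = N := dt_add u p v
    obtain ⟨w, hw⟩ : ∃ w : ℝ, w = dx u p := ⟨_, rfl⟩
    have hwz : z * N ^ (2 / 3 : ℝ) ≤ |w| := by rw [hw]; exact hr3
    have hD : 3 * |dx u v| ≤ |w| := h3.trans hwz
    have hDw : dx p v = dx u v - w := by rw [hw, ← dx_add u p v]; ring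
    rw [← hw] at e1
    rw [hDw] at e2
    have hw2 : (2 / 3 * |w|) ^ 2 ≤ (dx u v - w) ^ 2 := by
      rw [← sq_abs (dx u v - w)]
      have : 2 / 3 * |w| ≤ |dx u v - w| := by
        have h1 := abs_sub_abs_le_abs_sub w (dx u v)
        rw [abs_sub_comm] at h1
        linarith only [h3, hwz, h1]
      gcongr
    have hw2' : 4 / 9 * w ^ 2 ≤ (dx u v - w) ^ 2 := by
      have : (2 / 3 * |w|) ^ 2 = 4 / 9 * w ^ 2 := by rw [mul_pow, sq_abs]; norm_num
      linarith only [hw2, this]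
    have hD2 : dx u v ^ 2 ≤ 1 / 9 * w ^ 2 := by
      have h1 : |dx u v| ≤ 1 / 3 * |w| := by linarith only [h3, hwz]
      have h2 : |dx u v| ^ 2 ≤ (1 / 3 * |w|) ^ 2 := by gcongr
      rw [sq_abs, mul_pow, sq_abs] at h2
      linarith only [h2]
    have f1 : w ^ 2 / (11 / 10 * N) ≤ w ^ 2 / (dt u p + 1 / 10 * N) := by
      apply div_le_div_of_nonneg_left (by positivity) (by positivity)
      linarith only [d2, d3]
    have f2 : 4 / 9 * w ^ 2 / (11 / 10 * N) ≤ (dx u v - w) ^ 2 / (dt p v + 1 / 10 * N) := by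
      apply div_le_div₀ (by positivity) hw2' (by positivity)
      linarith only [d1, d3]
    have f3 : dx u v ^ 2 / N ≤ 1 / 9 * w ^ 2 / N := by gcongr
    obtain ⟨W, hW⟩ : ∃ W : ℝ, W = w ^ 2 / N := ⟨_, rfl⟩
    have f4 : w ^ 2 / (11 / 10 * N) = 10 / 11 * W := by rw [hW]; field_simp
    have f5 : 4 / 9 * w ^ 2 / (11 / 10 * N) = 40 / 99 * W := by rw [hW]; field_simp; ring
    have f6 : 1 / 9 * w ^ 2 / N = 1 / 9 * W := by rw [hW]; ring
    rw [f4] at f1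
    rw [f5] at f2
    rw [f6] at f3
    have hWz : z ^ 2 * N ^ (1 / 3 : ℝ) ≤ W := by
      rw [hW, ← hN43, ← sq_abs w]
      have h1 : (z * N ^ (2 / 3 : ℝ)) ^ 2 ≤ |w| ^ 2 := by gcongr
      calc z ^ 2 * ((N ^ (2 / 3 : ℝ)) ^ 2 / N) = (z * N ^ (2 / 3 : ℝ)) ^ 2 / N := by ring
        _ ≤ |w| ^ 2 / N := by gcongr
    have g1 : sg q / 2 * w ^ 2 / (dt u p + 1 / 10 * N) =
        sg q / 2 * (w ^ 2 / (dt u p + 1 / 10 * N)) := by ring
    have g2 : sg q / 2 * (dx u v - w) ^ 2 / (dt p v + 1 / 10 * N) =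
        sg q / 2 * ((dx u v - w) ^ 2 / (dt p v + 1 / 10 * N)) := by ring
    have g3 : sg q / 2 * dx u v ^ 2 / N = sg q / 2 * (dx u v ^ 2 / N) := by ring
    rw [g1] at e1
    rw [g2] at e2
    rw [g3] at e3
    have k1 : sg q / 2 * (10 / 11 * W) ≤ sg q / 2 * (w ^ 2 / (dt u p + 1 / 10 * N)) := by gcongr
    have k2 : sg q / 2 * (40 / 99 * W) ≤ sg q / 2 * ((dx u v - w) ^ 2 / (dt p v + 1 / 10 * N)) := by
      gcongr
    have k3 : sg q / 2 * (dx u v ^ 2 / N) ≤ sg q / 2 * (1 / 9 * W) := by gcongr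
    have k4 : sg q * (z ^ 2 * N ^ (1 / 3 : ℝ)) ≤ sg q * W := by gcongr
    have k5 : Y * N ^ (1 / 3 : ℝ) = 1 / 8 * (sg q * (z ^ 2 * N ^ (1 / 3 : ℝ))) := by
      rw [hY]; ring
    have k6 : x * N ^ (1 / 3 : ℝ) = 1 / 10 * (sg q * (z ^ 2 * N ^ (1 / 3 : ℝ))) := by
      rw [hx]; ring
    rw [k5] at e1 e2
    rw [k6] at e3
    have k7 : mu q * dt u p + mu q * dt p v = mu q * N := by rw [← d3]; ring
    have k8 : 0 < sg q * (z ^ 2 * N ^ (1 / 3 : ℝ)) := by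
      have : 0 < z := by linarith only [hq0, hq1, hz1]
      positivity
    have l1 : sg q / 2 * (10 / 11 * W) = 5 / 11 * (sg q * W) := by ring
    have l2 : sg q / 2 * (40 / 99 * W) = 20 / 99 * (sg q * W) := by ring
    have l3 : sg q / 2 * (1 / 9 * W) = 1 / 18 * (sg q * W) := by ring
    rw [l1] at k1
    rw [l2] at k2
    rw [l3] at k3
    linarith only [hT, e3, e2, e1, k1, k2, k3, k4, k7, k8]
  have p1 : (PE q).real S1 ≤ C1 * Real.exp (-c1 * Y) := hBA L hL1 u Y hY0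
  have p2 : (PE q).real S2 ≤ C1 * Real.exp (-c1 * Y) := hBA L hL1 b Y hY0
  have p3 : (PE q).real S3 ≤ A * Real.exp (-c2 * x ^ (3 / 2 : ℝ)) := hLT u v huv hlt hdx x hx0
  have q1 : Real.exp (-c1 * Y) ≤ Real.exp (-(c * z ^ 2)) := by
    apply Real.exp_le_exp.2
    have : c * z ^ 2 ≤ c1 * sg q / 8 * z ^ 2 := by gcongr
    rw [hY]
    linarith
  have q3 : Real.exp (-c2 * x ^ (3 / 2 : ℝ)) ≤ Real.exp (-(c * z ^ 2)) := by
    apply Real.exp_le_exp.2
    have e1 : x ^ (3 / 2 : ℝ) = (sg q / 10) ^ (3 / 2 : ℝ) * z ^ 3 := by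
      rw [hx, Real.mul_rpow (by positivity) (by positivity)]
      congr 1
      rw [← Real.rpow_natCast, ← Real.rpow_natCast, ← Real.rpow_mul hz]
      norm_num
    have e2 : z ^ 2 ≤ z ^ 3 := pow_le_pow_right₀ hz1 (by norm_num)
    rw [e1]
    have e3 : c * z ^ 2 ≤ (c2 * (sg q / 10) ^ (3 / 2 : ℝ)) * z ^ 3 := by gcongr
    linarith
  calc (PE q).real {ω | ∃ (g : ℤ → ℤ) (r : ℤ), Geod ω u v g ∧ u.1 ≤ r ∧ r ≤ v.1 ∧
      z * N ^ (2 / 3 : ℝ) ≤ |((g r - u.2 : ℤ) : ℝ)|} ≤ (PE q).real ((S1 ∪ S2) ∪ S3) :=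
        measureReal_mono hsub (measure_ne_top _ _)
    _ ≤ ((PE q).real S1 + (PE q).real S2) + (PE q).real S3 := by
        refine (measureReal_union_le _ _).trans ?_
        gcongr
        exact measureReal_union_le _ _
    _ ≤ (C1 * Real.exp (-(c * z ^ 2)) + C1 * Real.exp (-(c * z ^ 2))) +
        A * Real.exp (-(c * z ^ 2)) := by
        gcongr
        · exact p1.trans (by gcongr)
        · exact p2.trans (by gcongr)
        · exact p3.trans (by gcongr)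
    _ ≤ _ := by
        have h1 := Real.exp_pos (-(c * z ^ 2))
        have h2 := mul_pos (Real.exp_pos c) h1
        linarith

theorem pf_TOP (h_TFG : T_TFG) : T_TOP := by
  intro q hq0 hq1 hLT
  obtain ⟨C, c, hC, hc, h⟩ := h_TFG q hq0 hq1 hLT
  refine ⟨C + Real.exp (9 * c), c, by positivity, hc, ?_⟩
  intro o e hoe hlt hdx x hx
  have hN1 := one_le_dt hlt
  have hexp := Real.exp_pos (-(c * x ^ 2))
  have hreal : (PE q).real {ω | ∃ (g : ℤ → ℤ) (r : ℤ), Geod ω o e g ∧ o.1 ≤ r ∧ r ≤ e.1 ∧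
      x * dt o e ^ (2 / 3 : ℝ) ≤ |((g r - o.2 : ℤ) : ℝ)|} ≤
      (C + Real.exp (9 * c)) * Real.exp (-(c * x ^ 2)) := by
    rcases lt_or_ge x 3 with hx3 | hx3
    · refine measureReal_le_one.trans ?_
      have h1 : (1 : ℝ) ≤ Real.exp (9 * c) * Real.exp (-(c * x ^ 2)) := by
        rw [← Real.exp_add]
        apply Real.one_le_exp
        have hx9 : x ^ 2 ≤ 9 := by nlinarith
        have := mul_le_mul_of_nonneg_left hx9 hc.le
        linarith
      have := mul_pos hC hexp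
      linarith
    · have h1 : |dx o e| ≤ dt o e ^ (3 / 4 : ℝ) :=
        hdx.trans (Real.rpow_le_rpow_of_exponent_le hN1 (by norm_num))
      have h2 : 3 * |dx o e| ≤ x * dt o e ^ (2 / 3 : ℝ) := by
        have : 0 < dt o e ^ (2 / 3 : ℝ) := by positivity
        nlinarith
      refine (h o e hoe hlt h1 x hx h2).trans ?_
      have := mul_pos (Real.exp_pos (9 * c)) hexp
      linarith
  rw [← ENNReal.ofReal_toReal (measure_ne_top (PE q) _)]
  exact ENNReal.ofReal_le_ofReal hreal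

end Pool.Agent.H22.ND
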