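import Pool.Agent.H22.ND.ITP

/-!
# Transversal fluctuations near an end point (TFL)
-/

open MeasureTheory ProbabilityTheory
open scoped ENNReal
open Pool.Agent.H99.NS Pool.Agent.H22.LPP Pool.Agent.H95.INS Pool.Agent.H76.ND

namespace Pool.Agent.H22.ND

/-- Pieces of geodesics are geodesics. -/
theorem geod_piece {ω : Env} {o e : Site} {g : ℤ → ℤ} (hg : Geod ω o e g) {s t : ℤ}
    (hs : o.1 ≤ s) (hst : s ≤ t) (ht : t ≤ e.1) : T ω (s, g s) (t, g t) ≤ wt ω s t g := by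
  obtain ⟨hc, hT⟩ := hg
  have c1 : Conn o (s, g s) g := hc.left (hst.trans ht)
  have c2 : Conn (s, g s) (t, g t) g := hc.restrict hs ht
  have c3 : Conn (t, g t) e g := hc.right (hs.trans hst)
  have h1 := le_T ω hs c1
  have h3 := le_T ω ht c3
  have r1 := c1.reach hs
  have r2 := c2.reach hst
  have r3 := c3.reach ht
  have h4 := T_superadd ω r1 r2
  have h5 := T_superadd ω (reach_trans r1 r2) r3
  have h6 := wt_add ω (hs.trans hst) ht g
  have h7 := wt_add ω hs hst g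
  simp only at h1 h3
  linarith

theorem mp_le {q : ℝ} {f : Env → Env} (hf : MeasurePreserving f (PE q) (PE q)) (S : Set Env) :
    PE q (f ⁻¹' S) ≤ PE q S := by
  calc PE q (f ⁻¹' S) ≤ PE q (f ⁻¹' (toMeasurable (PE q) S)) :=
        measure_mono (Set.preimage_mono (subset_toMeasurable _ _))
    _ = PE q (toMeasurable (PE q) S) :=
        hf.measure_preimage (measurableSet_toMeasurable _ _).nullMeasurableSet
    _ = PE q S := measure_toMeasurable _

theorem lv_mono {i j : ℕ} (h : i ≤ j) : lv i ≤ lv j := by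
  unfold lv
  have : (64 : ℤ) ^ (i - 1) ≤ 64 ^ (j - 1) := pow_le_pow_right₀ (by norm_num) (by omega)
  linarith

theorem lv_succ (i : ℕ) : lv (i + 1) = 32 * 64 ^ i := by
  unfold lv
  rw [Nat.add_sub_cancel]

theorem exists_top {N b : ℕ} (h : lv (b + 1) ≤ N) : ∃ I, b ≤ I ∧ lv (I + 1) ≤ N ∧
    (N : ℤ) < lv (I + 2) := by
  classical
  have hbN : b ≤ N := by
    rw [lv_succ] at h
    have h1 : (b : ℤ) < 64 ^ b := by exact_mod_cast Nat.lt_pow_self (by norm_num : 1 < 64)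
    have h2 : (0 : ℤ) < 64 ^ b := by positivity
    omega
  have h1 := Nat.findGreatest_spec (P := fun i => lv (i + 1) ≤ N) hbN h
  have h2 : b ≤ Nat.findGreatest (fun i => lv (i + 1) ≤ N) N := Nat.le_findGreatest hbN h
  refine ⟨_, h2, h1, ?_⟩
  by_contra hcon
  push Not at hcon
  set I := Nat.findGreatest (fun i => lv (i + 1) ≤ N) N with hI
  have h3 : I + 1 ≤ N := by
    have h4 : lv (I + 1 + 1) ≤ N := hcon
    rw [lv_succ] at h4
    have h5 : ((I + 1 : ℕ) : ℤ) < 64 ^ (I + 1) := by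
      exact_mod_cast Nat.lt_pow_self (by norm_num : 1 < 64)
    have h6 : (0 : ℤ) < 64 ^ (I + 1) := by positivity
    push_cast at h5
    omega
  have h4 := Nat.le_findGreatest (P := fun i => lv (i + 1) ≤ N) h3 hcon
  omega

/-- The conclusion of `T_D2` for a path starting at the centre. -/
theorem d2_zero {q C2 : ℝ}
    (hD2 : ∀ (P : PS) (K0 : ℝ) (Xc : ℤ) (a I k : ℕ) (u : ℤ) (g : ℤ → ℤ), 1 ≤ K0 → 16 ≤ Xc →
    4 * Xc ≤ 4 ^ a → 1 ≤ a → a ≤ k → a ≤ I → GSide P q K0 Xc a I k → -lv a ≤ u → u ≤ lv a →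
    |(g u : ℝ)| ≤ 8 * 16 ^ k → NO P (4 ^ a) (-lv (I + 1)) u g →
    (∀ i, a ≤ i → i ≤ I → 2 * |g (-lv (i + 1)) - g u| ≤ Xc * 16 ^ i) →
    (∀ i, a + 1 ≤ i → i ≤ I + 1 → |((g (-lv i) - g u : ℤ) : ℝ)| / 16 ^ i ≤
      (3 / 8) ^ (I + 1 - i) * (|((g (-lv (I + 1)) - g u : ℤ) : ℝ)| / 16 ^ (I + 1)) +
        C2 * K0 * (101 / 100) ^ ds k i) ∧
    (∀ r, -lv a ≤ r → r ≤ u → |((g r - g u : ℤ) : ℝ)| ≤ 16 ^ a *
      (3 * (3 / 8) ^ (I - a) * (|((g (-lv (I + 1)) - g u : ℤ) : ℝ)| / 16 ^ (I + 1)) +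
        C2 * K0 * (101 / 100) ^ ds k a)))
    {P : PS} {K0 : ℝ} {Xc : ℤ} {a I : ℕ} {g : ℤ → ℤ} (hK : 1 ≤ K0) (hX : 16 ≤ Xc)
    (hX4 : 4 * Xc ≤ 4 ^ a) (ha : 1 ≤ a) (haI : a ≤ I) (hG : GSide P q K0 Xc a I a)
    (hg0 : g 0 = 0) (hNO : NO P 0 (-lv (I + 1)) 0 g)
    (hcr : ∀ i, a ≤ i → i ≤ I → 2 * |g (-lv (i + 1))| ≤ Xc * 16 ^ i) :
    ∀ r, -lv a ≤ r → r ≤ 0 → |(g r : ℝ)| ≤ 16 ^ a *
      (3 * (|(g (-lv (I + 1)) : ℝ)| / 16 ^ (I + 1)) + C2 * K0) := by
  intro r hr1 hr2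
  have hlv := lv_pos a
  have hNO' : NO P (4 ^ a) (-lv (I + 1)) 0 g := by
    refine ⟨hNO.1, ?_⟩
    have := hNO.2
    have h4 : (0 : ℝ) < 4 ^ a := by positivity
    linarith
  have h := (hD2 P K0 Xc a I a 0 g hK hX hX4 ha le_rfl haI hG (by omega) hlv.le
    (by rw [hg0]; simp only [Int.cast_zero, abs_zero]; positivity) hNO' (by
      intro i h1 h2
      rw [hg0, sub_zero]
      exact hcr i h1 h2)).2 r hr1 hr2
  rw [hg0, sub_zero, sub_zero] at h
  have hds : ds a a = 0 := by unfold ds; omega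
  rw [hds, pow_zero, mul_one] at h
  refine h.trans ?_
  have h38 : ((3 : ℝ) / 8) ^ (I - a) ≤ 1 := pow_le_one₀ (by norm_num) (by norm_num)
  have hD : 0 ≤ |(g (-lv (I + 1)) : ℝ)| / 16 ^ (I + 1) := by positivity
  have : 3 * (3 / 8) ^ (I - a) * (|(g (-lv (I + 1)) : ℝ)| / 16 ^ (I + 1)) ≤
      3 * (|(g (-lv (I + 1)) : ℝ)| / 16 ^ (I + 1)) := by nlinarith
  gcongr

/-- The path of a geodesic seen from the lower end point, backward. -/
theorem side_o {ω : Env} {o e : Site} {N : ℕ} (hN : e.1 - o.1 = N) {g : ℤ → ℤ}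
    (hg : Geod ω o e g) {L : ℤ} (hL0 : 0 ≤ L) (hL : L ≤ N) :
    NO (bwd (shiftE o ω)) 0 (-L) 0 (fun r => g (o.1 - r) - o.2) := by
  have hpath : IsPath o.1 e.1 g := hg.1.1
  refine ⟨?_, ?_⟩
  · intro r h1 h2
    have := hpath (o.1 - (r + 1)) (by omega) (by omega)
    rw [show o.1 - (r + 1) + 1 = o.1 - r by ring] at this
    simp only
    omega
  · have e1 : (bwd (shiftE o ω)).W (-L) 0 (fun r => g (o.1 - r) - o.2) =
        wt (shiftE o ω) 0 L (fun r => g (o.1 + r) - o.2) := by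
      show wt (shiftE o ω) (-0) (- -L) (rvp fun r => g (o.1 - r) - o.2) = _
      rw [neg_zero, neg_neg]
      congr 1
      funext r
      unfold rvp
      simp only [sub_neg_eq_add]
    have e2 : (bwd (shiftE o ω)).TT (-L, (fun r => g (o.1 - r) - o.2) (-L))
        (0, (fun r => g (o.1 - r) - o.2) 0) =
        T (shiftE o ω) (0, g o.1 - o.2) (L, g (o.1 + L) - o.2) := by
      show T (shiftE o ω) (rev (0, g (o.1 - 0) - o.2)) (rev (-L, g (o.1 - -L) - o.2)) = _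
      unfold rev
      simp only [neg_zero, neg_neg, sub_zero, sub_neg_eq_add]
    rw [e1, e2, wt_shift, T_shift]
    have e3 : (fun r => (fun r => g (o.1 + r) - o.2) (r - o.1) + o.2) = g := by
      funext r
      simp only
      rw [show o.1 + (r - o.1) = r by ring]
      ring
    rw [e3, sub_zero]
    have h1 := geod_piece hg (s := o.1) (t := o.1 + L) le_rfl (by omega) (by omega)
    have e4 : ((0, g o.1 - o.2) : Site) + o = (o.1, g o.1) := by
      ext <;> simp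
    have e5 : ((L, g (o.1 + L) - o.2) : Site) + o = (o.1 + L, g (o.1 + L)) := by
      ext
      · simp [add_comm]
      · simp
    rw [e4, e5, zero_add, add_comm L o.1]
    exact h1

/-- The path of a geodesic seen from the upper end point. -/
theorem side_e {ω : Env} {o e : Site} {N : ℕ} (hN : e.1 - o.1 = N) {g : ℤ → ℤ}
    (hg : Geod ω o e g) {L : ℤ} (hL0 : 0 ≤ L) (hL : L ≤ N) :
    NO (fwd (shiftE e ω)) 0 (-L) 0 (fun r => g (e.1 + r) - e.2) := by
  have hpath : IsPath o.1 e.1 g := hg.1.1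
  refine ⟨?_, ?_⟩
  · intro r h1 h2
    have := hpath (e.1 + r) (by omega) (by omega)
    simp only
    rw [← add_assoc]
    omega
  · show T (shiftE e ω) (-L, g (e.1 + -L) - e.2) (0, g (e.1 + 0) - e.2) - 0 ≤
      wt (shiftE e ω) (-L) 0 (fun r => g (e.1 + r) - e.2)
    rw [wt_shift, T_shift]
    have e3 : (fun r => (fun r => g (e.1 + r) - e.2) (r - e.1) + e.2) = g := by
      funext r
      simp only
      rw [show e.1 + (r - e.1) = r by ring]
      ring
    rw [e3, sub_zero]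
    have h1 := geod_piece hg (s := e.1 - L) (t := e.1) (by omega) (by omega) le_rfl
    have e4 : ((-L, g (e.1 + -L) - e.2) : Site) + e = (e.1 - L, g (e.1 - L)) := by
      ext
      · simp; ring
      · simp [sub_eq_add_neg]
    have e5 : ((0, g (e.1 + 0) - e.2) : Site) + e = (e.1, g e.1) := by
      ext <;> simp
    rw [e4, e5, zero_add, show -L + e.1 = e.1 - L by ring]
    exact h1

end Pool.Agent.H22.ND
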