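import Pool.Agent.H22.ND.TFL

/-!
# Transversal fluctuations near an end point (TFL)
-/

open MeasureTheory ProbabilityTheory
open scoped ENNReal
open Pool.Agent.H99.NS Pool.Agent.H22.LPP Pool.Agent.H95.INS Pool.Agent.H76.ND

namespace Pool.Agent.H22.ND

theorem pow23 {N j : ℕ} (h : (N : ℤ) < 32 * 64 ^ j) : (N : ℝ) ^ (2 / 3 : ℝ) ≤ 11 * 16 ^ j := by
  have h1 : (N : ℝ) ≤ 32 * 64 ^ j := by
    have : (N : ℤ) ≤ 32 * 64 ^ j := h.le
    exact_mod_cast this
  calc (N : ℝ) ^ (2 / 3 : ℝ) ≤ (32 * 64 ^ j : ℝ) ^ (2 / 3 : ℝ) :=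
        Real.rpow_le_rpow (Nat.cast_nonneg _) h1 (by norm_num)
    _ = (32 : ℝ) ^ (2 / 3 : ℝ) * 16 ^ j := by
        rw [Real.mul_rpow (by norm_num) (by positivity), rpow_64]
    _ ≤ 11 * 16 ^ j := by
        have : (32 : ℝ) ^ (2 / 3 : ℝ) ≤ 11 := by
          calc (32 : ℝ) ^ (2 / 3 : ℝ) = ((32 : ℝ) ^ (2 : ℝ)) ^ (1 / 3 : ℝ) := by
                rw [← Real.rpow_mul (by norm_num)]; norm_num
            _ ≤ ((11 : ℝ) ^ (3 : ℝ)) ^ (1 / 3 : ℝ) := by
                apply Real.rpow_le_rpow (by positivity) _ (by norm_num)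
                norm_num
            _ = 11 := by
                rw [← Real.rpow_mul (by norm_num)]; norm_num
        gcongr

theorem to_real_le {q B : ℝ} {S : Set Env} (hB : 0 ≤ B) (h : PE q S ≤ ENNReal.ofReal B) :
    (PE q).real S ≤ B := ENNReal.toReal_le_of_le_ofReal hB h

theorem of_real_le {q B : ℝ} {S : Set Env} (h : (PE q).real S ≤ B) :
    PE q S ≤ ENNReal.ofReal B := by
  rw [← ENNReal.ofReal_toReal (measure_ne_top (PE q) S)]
  exact ENNReal.ofReal_le_ofReal h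

theorem pf_TFL (h_TOP : T_TOP) (h_PGN : T_PGN) (h_RGA : T_RGA) (h_PCR : T_PCR) (h_CHX : T_CHX)
    (h_GSI : T_GSI) (h_D2 : T_D2) : T_TFL := by
  intro q c0 hq0 hq1 hc0 hc01 hLT hIN
  obtain ⟨Ct, ct, hCt, hct, hTOP⟩ := h_TOP q hq0 hq1 hLT
  obtain ⟨Cp, cp, s1, hCp, hcp, hs1, hPGN⟩ := h_PGN q hq0 hq1 hIN
  obtain ⟨Cr, cr, hCr, hcr, hPCR⟩ := h_PCR q c0 hq0 hq1 hc0 hc01
  obtain ⟨C2, hC2, hD2⟩ := h_D2 q hq0 hq1
  obtain ⟨N1, hCHX⟩ := h_CHX c0 1 hc0 hc01
  obtain ⟨N2, hRGA⟩ := h_RGA q c0 0 hq0 hq1 hc0 hc01 le_rfl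
  obtain ⟨s, hs⟩ : ∃ s : ℝ, s = min s1 2 := ⟨_, rfl⟩
  have hs0 : 0 < s := by rw [hs]; exact lt_min hs1 (by norm_num)
  have hs1' : s ≤ s1 := by rw [hs]; exact min_le_left _ _
  have hs2' : s ≤ 2 := by rw [hs]; exact min_le_right _ _
  obtain ⟨c, hc⟩ : ∃ c : ℝ, c = min (min (ct / 2200 ^ 2) (cp / (128 * C2) ^ s1)) cr := ⟨_, rfl⟩
  have hc1 : 0 < c := by
    rw [hc]
    exact lt_min (lt_min (by positivity) (by positivity)) hcr
  have hca : c ≤ ct / 2200 ^ 2 := by
    rw [hc]; exact (min_le_left _ _).trans (min_le_left _ _)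
  have hcb : c ≤ cp / (128 * C2) ^ s1 := by
    rw [hc]; exact (min_le_left _ _).trans (min_le_right _ _)
  have hcc : c ≤ cr := by rw [hc]; exact min_le_right _ _
  obtain ⟨x0, hx0⟩ : ∃ x0 : ℝ, x0 = 2200 + 128 * C2 := ⟨_, rfl⟩
  have hx00 : 2200 ≤ x0 := by rw [hx0]; linarith
  have hx01 : 128 * C2 ≤ x0 := by rw [hx0]; linarith
  obtain ⟨C, hC⟩ : ∃ C : ℝ, C = Ct + Cp + Cr + Real.exp (c * x0 ^ s) := ⟨_, rfl⟩
  have hC0 : 0 < C := by rw [hC]; positivity
  refine ⟨C, c, s, max (max N1 N2) 1, hC0, hc1, hs0, ?_⟩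
  intro N o e b hN hEP hNb x hx
  have hN1 : N1 ≤ N := le_trans (le_max_left _ _) (le_trans (le_max_left _ _) hN)
  have hN2 : N2 ≤ N := le_trans (le_max_right _ _) (le_trans (le_max_left _ _) hN)
  have hN3 : 1 ≤ N := le_trans (le_max_right _ _) hN
  have hNr : (1 : ℝ) ≤ N := by exact_mod_cast hN3
  have hlt : o.1 < e.1 := by
    have := hEP.n
    omega
  have hdt : dt o e = N := by
    unfold dt
    rw [hEP.n]
    simp
  have hE1 := Real.exp_pos (-(c * x ^ s))
  have hE2 := Real.exp_pos (-(N : ℝ) ^ c)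
  rcases lt_or_ge x x0 with hxs | hxb
  · have h1 : (1 : ℝ) ≤ C * Real.exp (-(c * x ^ s)) + C * Real.exp (-(N : ℝ) ^ c) := by
      have h2 : (1 : ℝ) ≤ Real.exp (c * x0 ^ s) * Real.exp (-(c * x ^ s)) := by
        rw [← Real.exp_add]
        apply Real.one_le_exp
        have : x ^ s ≤ x0 ^ s := Real.rpow_le_rpow hx hxs.le hs0.le
        nlinarith
      have h3 : Real.exp (c * x0 ^ s) * Real.exp (-(c * x ^ s)) ≤ C * Real.exp (-(c * x ^ s)) := by
        apply mul_le_mul_of_nonneg_right _ hE1.le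
        rw [hC]
        linarith
      have h4 := mul_pos hC0 hE2
      linarith
    exact ⟨of_real_le (measureReal_le_one.trans h1), of_real_le (measureReal_le_one.trans h1)⟩
  have hx1 : 1 ≤ x := by linarith
  set TE : Set Env := {ω | ∃ (g : ℤ → ℤ) (r : ℤ), Geod ω o e g ∧ o.1 ≤ r ∧ r ≤ e.1 ∧
      x / 2200 * dt o e ^ (2 / 3 : ℝ) ≤ |((g r - o.2 : ℤ) : ℝ)|} with hTE
  have hTEp : (PE q).real TE ≤ Ct * Real.exp (-(c * x ^ s)) := by
    refine (to_real_le (by positivity) (hTOP o e hEP.r hlt (by rw [hdt]; exact hEP.d) (x / 2200)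
      (by positivity))).trans ?_
    apply mul_le_mul_of_nonneg_left _ hCt.le
    apply Real.exp_le_exp.2
    have h1 : x ^ s ≤ x ^ 2 := by
      have := Real.rpow_le_rpow_of_exponent_le hx1 hs2'
      rwa [show x ^ (2 : ℝ) = x ^ 2 from Real.rpow_natCast x 2] at this
    have h2 : c * x ^ s ≤ ct / 2200 ^ 2 * x ^ 2 := by gcongr
    have h3 : ct * (x / 2200) ^ 2 = ct / 2200 ^ 2 * x ^ 2 := by ring
    linarith
  -- the general bound
  have hgen : ∀ (S : Set Env) (z : Site), (lv (b + 2) ≤ N → ∃ I, b + 1 ≤ I ∧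
      S ⊆ (TE ∪ (shiftE z ⁻¹' {ω | ¬ GN q (x / (128 * C2)) (Xn c0 N) (b + 1) I (b + 1) ω})) ∪
        {ω | ¬ Crd q c0 o N ω}) → ((N : ℤ) < lv (b + 2) → S ⊆ TE) →
      PE q S ≤ ENNReal.ofReal (C * Real.exp (-(c * x ^ s)) + C * Real.exp (-(N : ℝ) ^ c)) := by
    intro S z hB hA
    apply of_real_le
    rcases lt_or_ge (N : ℤ) (lv (b + 2)) with hcase | hcase
    · refine (measureReal_mono (hA hcase) (measure_ne_top _ _)).trans (hTEp.trans ?_)
      have h1 : Ct * Real.exp (-(c * x ^ s)) ≤ C * Real.exp (-(c * x ^ s)) := by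
        apply mul_le_mul_of_nonneg_right _ hE1.le
        rw [hC]
        have := Real.exp_pos (c * x0 ^ s)
        linarith
      have h4 := mul_pos hC0 hE2
      linarith
    · obtain ⟨I, hI, hsub⟩ := hB hcase
      have hNb' : (N : ℝ) ^ c0 ≤ 64 ^ (b + 1) := by
        refine hNb.trans ?_
        exact pow_le_pow_right₀ (by norm_num) (by omega)
      obtain ⟨k1, k2, k3, k4, k5, k6⟩ := hCHX N (b + 1) hN1 hNb'
      have hkap : 1 ≤ x / (128 * C2) := by
        rw [le_div_iff₀ (by positivity)]; linarith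
      have hG : (PE q).real (shiftE z ⁻¹' {ω | ¬ GN q (x / (128 * C2)) (Xn c0 N) (b + 1) I (b + 1) ω})
          ≤ Cp * Real.exp (-(c * x ^ s)) := by
        have h1 := (mp_le (mp_shiftE q z)
          {ω | ¬ GN q (x / (128 * C2)) (Xn c0 N) (b + 1) I (b + 1) ω}).trans
          (hPGN (x / (128 * C2)) (Xn c0 N) (b + 1) I (b + 1) hkap k4 k6 k1 le_rfl)
        refine (to_real_le (by positivity) h1).trans ?_
        apply mul_le_mul_of_nonneg_left _ hCp.le
        apply Real.exp_le_exp.2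
        have h2 : x ^ s ≤ x ^ s1 := Real.rpow_le_rpow_of_exponent_le hx1 hs1'
        have h3 : (x / (128 * C2)) ^ s1 = x ^ s1 / (128 * C2) ^ s1 :=
          Real.div_rpow hx (by positivity) _
        have h4 : c * x ^ s ≤ cp / (128 * C2) ^ s1 * x ^ s1 := by gcongr
        rw [h3]
        have h5 : cp * (x ^ s1 / (128 * C2) ^ s1) = cp / (128 * C2) ^ s1 * x ^ s1 := by ring
        linarith
      have hR : (PE q).real {ω | ¬ Crd q c0 o N ω} ≤ Cr * Real.exp (-(N : ℝ) ^ c) := by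
        refine (to_real_le (by positivity) (hPCR o N hN3)).trans ?_
        apply mul_le_mul_of_nonneg_left _ hCr.le
        apply Real.exp_le_exp.2
        have := Real.rpow_le_rpow_of_exponent_le hNr hcc
        linarith
      calc (PE q).real S ≤ (PE q).real ((TE ∪ (shiftE z ⁻¹'
            {ω | ¬ GN q (x / (128 * C2)) (Xn c0 N) (b + 1) I (b + 1) ω})) ∪
              {ω | ¬ Crd q c0 o N ω}) := measureReal_mono hsub (measure_ne_top _ _)
        _ ≤ ((PE q).real TE + (PE q).real (shiftE z ⁻¹'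
            {ω | ¬ GN q (x / (128 * C2)) (Xn c0 N) (b + 1) I (b + 1) ω})) +
              (PE q).real {ω | ¬ Crd q c0 o N ω} := by
            refine (measureReal_union_le _ _).trans ?_
            gcongr
            exact measureReal_union_le _ _
        _ ≤ (Ct * Real.exp (-(c * x ^ s)) + Cp * Real.exp (-(c * x ^ s))) +
              Cr * Real.exp (-(N : ℝ) ^ c) := by gcongr
        _ ≤ _ := by
            rw [hC]
            have h1 := mul_pos hCr hE1
            have h2 := mul_pos hCt hE2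
            have h3 := mul_pos hCp hE2
            have h4 := Real.exp_pos (c * x0 ^ s)
            have h5 := mul_pos h4 hE1
            have h6 := mul_pos h4 hE2
            linarith
  -- position of the geodesics
  have hpos : ∀ ω, ω ∉ TE → ∀ g, Geod ω o e g → ∀ r, o.1 ≤ r → r ≤ e.1 →
      |((g r - o.2 : ℤ) : ℝ)| < x / 2200 * (N : ℝ) ^ (2 / 3 : ℝ) := by
    intro ω hω g hg r h1 h2
    by_contra hcon
    push Not at hcon
    apply hω
    refine ⟨g, r, hg, h1, h2, ?_⟩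
    rw [hdt]
    exact hcon
  have hdev : |((e.2 - o.2 : ℤ) : ℝ)| ≤ (N : ℝ) ^ (2 / 3 : ℝ) := hEP.d
  -- the facts in the case B
  have hBfacts : lv (b + 2) ≤ N → ∃ I, b + 1 ≤ I ∧ lv (I + 1) ≤ N ∧
      (N : ℝ) ^ (2 / 3 : ℝ) ≤ 11 * 16 ^ (I + 1) := by
    intro hcase
    obtain ⟨I, hI1, hI2, hI3⟩ := exists_top (b := b + 1) hcase
    refine ⟨I, hI1, hI2, pow23 ?_⟩
    rw [show I + 2 = (I + 1) + 1 by ring, lv_succ] at hI3
    exact hI3
  have hlv2 : lv (b + 2) = 32 * 64 ^ (b + 1) := lv_succ (b + 1)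
  have hfin : ∀ (ω : Env) (P : PS) (I : ℕ) (gt : ℤ → ℤ) (r' : ℤ), b + 1 ≤ I → lv (b + 2) ≤ N →
      GSide P q (x / (128 * C2)) (Xn c0 N) (b + 1) I (b + 1) → gt 0 = 0 →
      NO P 0 (-lv (I + 1)) 0 gt →
      (∀ i, b + 1 ≤ i → i ≤ I → 2 * |gt (-lv (i + 1))| ≤ Xn c0 N * 16 ^ i) →
      |(gt (-lv (I + 1)) : ℝ)| ≤ x / 100 * 16 ^ (I + 1) → -lv (b + 1) ≤ r' → r' ≤ 0 →
      |(gt r' : ℝ)| < x * 16 ^ b := by
    intro ω P I gt r' hI hcase hG hg0 hNO hcr htop hr1 hr2
    have hNb' : (N : ℝ) ^ c0 ≤ 64 ^ (b + 1) := by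
      refine hNb.trans ?_
      exact pow_le_pow_right₀ (by norm_num) (by omega)
    obtain ⟨k1, k2, k3, k4, k5, k6⟩ := hCHX N (b + 1) hN1 hNb'
    have hkap : 1 ≤ x / (128 * C2) := by
      rw [le_div_iff₀ (by positivity)]; linarith
    have h1 := d2_zero hD2 hkap k4 k5 k1 hI hG hg0 hNO hcr r' hr1 hr2
    have h2 : |(gt (-lv (I + 1)) : ℝ)| / 16 ^ (I + 1) ≤ x / 100 := by
      rw [div_le_iff₀ (by positivity)]
      exact htop
    have h3 : C2 * (x / (128 * C2)) = x / 128 := by field_simp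
    rw [h3] at h1
    have h16 : (0 : ℝ) < 16 ^ b := by positivity
    calc |(gt r' : ℝ)| ≤ 16 ^ (b + 1) * (3 * (|(gt (-lv (I + 1)) : ℝ)| / 16 ^ (I + 1)) + x / 128) :=
          h1
      _ ≤ 16 ^ (b + 1) * (3 * (x / 100) + x / 128) := by gcongr
      _ = (48 / 100 + 1 / 8) * x * 16 ^ b := by rw [pow_succ]; ring
      _ < x * 16 ^ b := by
          have : (48 / 100 + 1 / 8) * x < x := by linarith
          exact mul_lt_mul_of_pos_right this h16
  have hrlx : ∀ ω, Crd q c0 o N ω → lv (b + 2) ≤ N → ∀ g, Geod ω o e g →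
      Rlx (Xn c0 N) (b + 1) o e g := by
    intro ω hω hcase g hg
    have hNb' : (N : ℝ) ^ c0 ≤ 64 ^ (b + 1) := by
      refine hNb.trans ?_
      exact pow_le_pow_right₀ (by norm_num) (by omega)
    refine hRGA N o e ω (b + 1) hN2 hEP hω hNb' ?_ g ⟨hg.1, ?_⟩
    · rw [hlv2] at hcase
      have h1 : (0 : ℤ) < 64 ^ (b + 1) := by positivity
      have h2 : (64 : ℤ) ^ (b + 1) ≤ N := by linarith
      exact_mod_cast h2
    · rw [zero_mul, sub_zero, hg.2]
  constructor
  · refine hgen _ o ?_ ?_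
    · intro hcase
      obtain ⟨I, hI1, hI2, hI3⟩ := hBfacts hcase
      refine ⟨I, hI1, ?_⟩
      intro ω hω
      by_contra hcon
      rw [Set.mem_union, Set.mem_union, not_or, not_or] at hcon
      obtain ⟨⟨n1, n2⟩, n3⟩ := hcon
      have n2' : GN q (x / (128 * C2)) (Xn c0 N) (b + 1) I (b + 1) (shiftE o ω) := by
        by_contra h; exact n2 h
      have n3' : Crd q c0 o N ω := by by_contra h; exact n3 h
      obtain ⟨g, r, hg, hr1, hr2, hr3, hr4⟩ := hω
      have hR := hrlx ω n3' hcase g hg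
      have hlvI : 0 < lv (I + 1) := lv_pos _
      have h1 := hfin ω (bwd (shiftE o ω)) I (fun r => g (o.1 - r) - o.2) (o.1 - r) hI1 hcase
        (h_GSI q _ _ _ _ _ _ hI1 n2').2 (by
          simp only [sub_zero]
          rw [hg.1.2.1]; ring)
        (side_o hEP.n hg hlvI.le hI2) (by
          intro i h1 h2
          simp only [sub_neg_eq_add]
          have h3 : lv (i + 1) ≤ lv (I + 1) := lv_mono (by omega)
          have h4 := lv_pos (i + 1)
          have h5 := hEP.n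
          have h6 := hR o.1 (o.1 + lv (i + 1)) i h1 le_rfl (by omega) (by omega) (by omega) (by
            rw [show o.1 + lv (i + 1) - o.1 = lv (i + 1) by ring, abs_of_pos h4, lv_succ]
            have : (0 : ℤ) < 64 ^ i := by positivity
            linarith)
          rw [hg.1.2.1] at h6
          exact h6) (by
          simp only [sub_neg_eq_add]
          have h5 := hEP.n
          have h6 := hpos ω n1 g hg (o.1 + lv (I + 1)) (by omega) (by omega)
          have h7 : x / 2200 * (N : ℝ) ^ (2 / 3 : ℝ) ≤ x / 2200 * (11 * 16 ^ (I + 1)) := by gcongr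
          have h8 : (0 : ℝ) < x * 16 ^ (I + 1) := by positivity
          linarith) (by omega) (by omega)
      simp only [sub_sub_cancel] at h1
      linarith
    · intro hcase
      rw [hlv2] at hcase
      have h11 := pow23 hcase
      rintro ω ⟨g, r, hg, hr1, hr2, hr3, hr4⟩
      refine ⟨g, r, hg, hr1, hr2, ?_⟩
      rw [hdt]
      refine le_trans ?_ hr4
      have h8 : (0 : ℝ) < x * 16 ^ b := by positivity
      calc x / 2200 * (N : ℝ) ^ (2 / 3 : ℝ) ≤ x / 2200 * (11 * 16 ^ (b + 1)) := by gcongr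
        _ = 176 / 2200 * (x * 16 ^ b) := by rw [pow_succ]; ring
        _ ≤ x * 16 ^ b := by linarith
  · refine hgen _ e ?_ ?_
    · intro hcase
      obtain ⟨I, hI1, hI2, hI3⟩ := hBfacts hcase
      refine ⟨I, hI1, ?_⟩
      intro ω hω
      by_contra hcon
      rw [Set.mem_union, Set.mem_union, not_or, not_or] at hcon
      obtain ⟨⟨n1, n2⟩, n3⟩ := hcon
      have n2' : GN q (x / (128 * C2)) (Xn c0 N) (b + 1) I (b + 1) (shiftE e ω) := by
        by_contra h; exact n2 h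
      have n3' : Crd q c0 o N ω := by by_contra h; exact n3 h
      obtain ⟨g, r, hg, hr1, hr2, hr3, hr4⟩ := hω
      have hR := hrlx ω n3' hcase g hg
      have hlvI : 0 < lv (I + 1) := lv_pos _
      have h1 := hfin ω (fwd (shiftE e ω)) I (fun r => g (e.1 + r) - e.2) (r - e.1) hI1 hcase
        (h_GSI q _ _ _ _ _ _ hI1 n2').1 (by
          simp only [add_zero]
          rw [hg.1.2.2]; ring)
        (side_e hEP.n hg hlvI.le hI2) (by
          intro i h1 h2
          have h3 : lv (i + 1) ≤ lv (I + 1) := lv_mono (by omega)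
          have h4 := lv_pos (i + 1)
          have h5 := hEP.n
          have h6 := hR e.1 (e.1 + -lv (i + 1)) i h1 (by omega) le_rfl (by omega) (by omega) (by
            rw [show e.1 + -lv (i + 1) - e.1 = -lv (i + 1) by ring, abs_neg, abs_of_pos h4, lv_succ]
            have : (0 : ℤ) < 64 ^ i := by positivity
            linarith)
          rw [hg.1.2.2] at h6
          exact h6) (by
          have h5 := hEP.n
          have h6 := hpos ω n1 g hg (e.1 + -lv (I + 1)) (by omega) (by omega)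
          have h7 : x / 2200 * (N : ℝ) ^ (2 / 3 : ℝ) ≤ x / 2200 * (11 * 16 ^ (I + 1)) := by gcongr
          have h8 : (0 : ℝ) < 16 ^ (I + 1) := by positivity
          have h9 : ((g (e.1 + -lv (I + 1)) - e.2 : ℤ) : ℝ) =
              ((g (e.1 + -lv (I + 1)) - o.2 : ℤ) : ℝ) - ((e.2 - o.2 : ℤ) : ℝ) := by
            push_cast; ring
          rw [h9]
          refine (abs_sub _ _).trans ?_
          have h10 : (11 : ℝ) * 16 ^ (I + 1) ≤ x / 200 * 16 ^ (I + 1) := by
            apply mul_le_mul_of_nonneg_right _ h8.le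
            linarith
          linarith) (by omega) (by omega)
      simp only [add_sub_cancel] at h1
      linarith
    · intro hcase
      rw [hlv2] at hcase
      have h11 := pow23 hcase
      rintro ω ⟨g, r, hg, hr1, hr2, hr3, hr4⟩
      refine ⟨g, r, hg, hr1, hr2, ?_⟩
      rw [hdt]
      have h8 : (0 : ℝ) < 16 ^ b := by positivity
      have h9 : ((g r - o.2 : ℤ) : ℝ) = ((g r - e.2 : ℤ) : ℝ) + ((e.2 - o.2 : ℤ) : ℝ) := by
        push_cast; ring
      have h10 : |((g r - e.2 : ℤ) : ℝ)| ≤ |((g r - o.2 : ℤ) : ℝ)| + |((e.2 - o.2 : ℤ) : ℝ)| := by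
        have : ((g r - e.2 : ℤ) : ℝ) = ((g r - o.2 : ℤ) : ℝ) - ((e.2 - o.2 : ℤ) : ℝ) := by
          push_cast; ring
        rw [this]
        exact abs_sub _ _
      have h12 : (11 : ℝ) * 16 ^ (b + 1) = 176 * 16 ^ b := by rw [pow_succ]; ring
      rw [h12] at h11
      have h13 : (176 : ℝ) * 16 ^ b ≤ x / 2 * 16 ^ b := by
        apply mul_le_mul_of_nonneg_right _ h8.le
        linarith
      have h14 : x / 2200 * (N : ℝ) ^ (2 / 3 : ℝ) ≤ x / 2200 * (176 * 16 ^ b) := by gcongr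
      have h15 : (0 : ℝ) < x * 16 ^ b := by positivity
      linarith

end Pool.Agent.H22.ND
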